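import Pool.Agent.H252.EL.Iface

/-!
# The composed connecting maps are diagonal
-/

set_option autoImplicit false
set_option linter.unusedSectionVars false

noncomputable section

namespace Pool.Agent.H286.ELPATCH

open Filter Topology
open Pool.Agent.H252.EL

section lam

variable {d : Bool → ℕ} {m : ℕ} {e : Bool → ℕ} (q : ∀ b, Cb (d b)) (S c : ℕ) (s : Fin S)

theorem lam_lt (h : (s : ℕ) < m) (z : ZZ fun b => m * d b + e b) :
    lam (m := m) (e := e) q S c s z = ⟨z.1, pj ⟨s, h⟩ z.2⟩ := by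
  unfold lam
  rw [dif_pos h]
  rfl

theorem lam_const (h : ¬ (s : ℕ) < m) (z z' : ZZ fun b => m * d b + e b) (hz : z.1 = z'.1) :
    lam (m := m) (e := e) q S c s z = lam q S c s z' := by
  unfold lam
  rw [dif_neg h]
  obtain ⟨b, z⟩ := z
  obtain ⟨b', z'⟩ := z'
  obtain rfl : b = b' := hz
  split_ifs
  · rfl
  · rfl

end lam

/-- the conclusion for one `r` -/
def Con (D : Sys) (i r : ℕ) : Prop :=
  ∃ (P : Type) (_ : Fintype P) (_ : DecidableEq P) (l : P → C(D.Z (i + r), D.Z i)) (G : P → Prop)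
    (_ : DecidablePred G) (E : Fin (D.n (i + r)) ≃ Fin (D.n i) × P),
    (∀ (a : D.A i) (z : D.Z (i + r)) (x y : Fin (D.n (i + r))),
      D.tr i r a z x y = if (E x).2 = (E y).2 then a (l (E x).2 z) (E x).1 (E y).1 else 0) ∧
    Fintype.card P = ∏ k ∈ Finset.range r, D.S (i + k) ∧
    Fintype.card {p // G p} = ∏ k ∈ Finset.range r, D.m (i + k) ∧
    (∀ b : Bool, ∃ F : ({p // G p} → Cb (D.d i b)) → Cb (D.d (i + r) b), Continuous F ∧
      ∀ y p, l p.1 ⟨b, F y⟩ = ⟨b, y p⟩) ∧
    (∀ p, ¬ G p → ∀ z z' : D.Z (i + r), z.1 = z'.1 → l p z = l p z')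

theorem con_zero (D : Sys) (i : ℕ) : Con D i 0 := by
  refine ⟨Unit, inferInstance, inferInstance, fun _ => ContinuousMap.id _, fun _ => True,
    fun _ => instDecidableTrue, (Equiv.prodPUnit _).symm, ?_, ?_, ?_, ?_, ?_⟩
  · intro a z x y
    rw [if_pos rfl]
    rfl
  · simp
  · simp
  · intro b
    refine ⟨fun y => y ⟨(), trivial⟩, continuous_apply _, ?_⟩
    rintro y ⟨⟨⟩, _⟩
    rfl
  · intro p hp
    exact absurd trivial hp

/-- the small indices -/
def smallEquiv {m S : ℕ} (h : m ≤ S) : {s : Fin S // (s : ℕ) < m} ≃ Fin m where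
  toFun s := ⟨s.1.1, s.2⟩
  invFun t := ⟨⟨t.1, lt_of_lt_of_le t.2 h⟩, t.2⟩
  left_inv _ := rfl
  right_inv _ := rfl

theorem con_succ (D : Sys) (hD : D.Good) (i r : ℕ) (h : Con D i r) : Con D i (r + 1) := by
  obtain ⟨P, iF, iD, l, G, iG, E, h1, h2, h3, h4, h5⟩ := h
  have hmS : D.m (i + r) ≤ D.S (i + r) := by
    have := hD.lt (i + r)
    omega
  let E' : Fin (D.n (i + (r + 1))) ≃ Fin (D.n i) × (P × Fin (D.S (i + r))) :=
    (finProdFinEquiv (m := D.n (i + r)) (n := D.S (i + r))).symm.trans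
      ((E.prodCongr (Equiv.refl _)).trans (Equiv.prodAssoc _ _ _))
  refine ⟨P × Fin (D.S (i + r)), inferInstance, inferInstance,
    fun p => (l p.1).comp (D.l (i + r) p.2), fun p => G p.1 ∧ (p.2 : ℕ) < D.m (i + r),
    fun p => inferInstance, E', ?_, ?_, ?_, ?_, ?_⟩
  · intro a z x y
    obtain ⟨⟨x1, t⟩, rfl⟩ := (finProdFinEquiv (m := D.n (i + r)) (n := D.S (i + r))).surjective x
    obtain ⟨⟨y1, u⟩, rfl⟩ := (finProdFinEquiv (m := D.n (i + r)) (n := D.S (i + r))).surjective y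
    have hE : ∀ (x1 : Fin (D.n (i + r))) (t : Fin (D.S (i + r))),
        E' (finProdFinEquiv (x1, t)) = ((E x1).1, ((E x1).2, t)) := by
      intro x1 t
      show (Equiv.prodAssoc _ _ _) ((E.prodCongr (Equiv.refl _)) (finProdFinEquiv.symm (finProdFinEquiv (x1, t)))) = _
      rw [Equiv.symm_apply_apply]
      rfl
    rw [hE, hE]
    have hL : D.tr i (r + 1) a z (finProdFinEquiv (x1, t)) (finProdFinEquiv (y1, u)) =
        if t = u then (D.tr i r a) (D.l (i + r) t z) x1 y1 else 0 := by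
      show dgv (fun s => D.l (i + r) s z) (D.tr i r a) (finProdFinEquiv (x1, t)) (finProdFinEquiv (y1, u)) = _
      rw [dgv_apply]
    rw [hL, h1]
    by_cases htu : t = u
    · subst htu
      rw [if_pos rfl]
      by_cases hxy : (E x1).2 = (E y1).2
      · rw [if_pos hxy, if_pos (by rw [hxy])]
        rfl
      · rw [if_neg hxy, if_neg (by intro h; exact hxy (Prod.ext_iff.1 h).1)]
    · rw [if_neg htu, if_neg (by intro h; exact htu (Prod.ext_iff.1 h).2)]
  · rw [Fintype.card_prod, h2, Finset.prod_range_succ, Fintype.card_fin]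
  · have e1 : Fintype.card {p : P × Fin (D.S (i + r)) // G p.1 ∧ (p.2 : ℕ) < D.m (i + r)} =
        Fintype.card ({p // G p} × {s : Fin (D.S (i + r)) // (s : ℕ) < D.m (i + r)}) :=
      Fintype.card_congr (Equiv.subtypeProdEquivProd (p := G)
        (q := fun s : Fin (D.S (i + r)) => (s : ℕ) < D.m (i + r)))
    rw [Finset.prod_range_succ, ← h3]
    refine e1.trans ?_
    rw [Fintype.card_prod, Fintype.card_congr (smallEquiv hmS), Fintype.card_fin]
  · intro b
    obtain ⟨F, hF, hF2⟩ := h4 b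
    let Y : ({p : P × Fin (D.S (i + r)) // G p.1 ∧ (p.2 : ℕ) < D.m (i + r)} → Cb (D.d i b)) →
        Fin (D.m (i + r)) → ({p // G p} → Cb (D.d i b)) :=
      fun y s p => y ⟨(p.1, ⟨s.1, lt_of_lt_of_le s.2 hmS⟩), ⟨p.2, s.2⟩⟩
    let F' : ({p : P × Fin (D.S (i + r)) // G p.1 ∧ (p.2 : ℕ) < D.m (i + r)} → Cb (D.d i b)) →
        Cb (D.m (i + r) * D.d (i + r) b + D.e (i + r) b) := fun y =>
      Fin.addCases (fun a => F (Y y (finProdFinEquiv.symm a).1) (finProdFinEquiv.symm a).2) (fun _ => 0)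
    refine ⟨F', ?_, ?_⟩
    · refine continuous_pi fun x => ?_
      refine Fin.addCases (fun a => ?_) (fun a => ?_) x
      · have e : (fun y => F' y (Fin.castAdd (D.e (i + r) b) a)) = fun y =>
            F (Y y (finProdFinEquiv.symm a).1) (finProdFinEquiv.symm a).2 := by
          funext y
          exact Fin.addCases_left a
        rw [e]
        refine (continuous_apply _).comp (hF.comp ?_)
        exact continuous_pi fun p => continuous_apply _
      · have e : (fun y => F' y (Fin.natAdd (D.m (i + r) * D.d (i + r) b) a)) = fun _ => 0 := by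
          funext y
          exact Fin.addCases_right a
        rw [e]
        exact continuous_const
    · rintro y ⟨⟨p, s⟩, hp, hs⟩
      show l p (D.l (i + r) s ⟨b, F' y⟩) = ⟨b, y ⟨(p, s), ⟨hp, hs⟩⟩⟩
      have e : D.l (i + r) s ⟨b, F' y⟩ = ⟨b, F (Y y ⟨s, hs⟩)⟩ := by
        refine (lam_lt (D.q (i + r)) (D.S (i + r)) (D.c (i + r)) s hs ⟨b, F' y⟩).trans ?_
        have e2 : pj ⟨s, hs⟩ (F' y) = F (Y y ⟨s, hs⟩) := by
          funext a
          rw [pj_apply]
          refine (Fin.addCases_left _).trans ?_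
          rw [Equiv.symm_apply_apply]
        exact congrArg (fun w => (⟨b, w⟩ : D.Z (i + r))) e2
      rw [e]
      exact hF2 (Y y ⟨s, hs⟩) ⟨p, hp⟩
  · rintro ⟨p, s⟩ hps z z' hz
    show l p (D.l (i + r) s z) = l p (D.l (i + r) s z')
    by_cases hs : (s : ℕ) < D.m (i + r)
    · have hp : ¬ G p := fun hp => hps ⟨hp, hs⟩
      refine h5 p hp _ _ ?_
      have e1 : D.l (i + r) s z = ⟨z.1, pj ⟨s, hs⟩ z.2⟩ :=
        lam_lt (D.q (i + r)) (D.S (i + r)) (D.c (i + r)) s hs z
      have e2 : D.l (i + r) s z' = ⟨z'.1, pj ⟨s, hs⟩ z'.2⟩ :=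
        lam_lt (D.q (i + r)) (D.S (i + r)) (D.c (i + r)) s hs z'
      rw [e1, e2]
      exact hz
    · have e : D.l (i + r) s z = D.l (i + r) s z' :=
        lam_const (D.q (i + r)) (D.S (i + r)) (D.c (i + r)) s hs z z' hz
      rw [e]

theorem s_PATCH : Pool.Agent.H252.EL.S_PATCH := by
  intro D hD i r
  have h : Con D i r := by
    induction r with
    | zero => exact con_zero D i
    | succ r ih => exact con_succ D hD i r ih
  exact h

end Pool.Agent.H286.ELPATCH
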