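import Pool.Agent.HLead.CB.Defs

/-!
# Task CB TREE: length preserving automorphisms of the order `List ℚ` are tree automorphisms
-/

set_option autoImplicit false

namespace Pool.Agent.H286.CB

theorem append_lt (l : List ℚ) : ∀ (σ ρ : List ℚ), σ < ρ → ρ.length ≤ σ.length → σ ++ l < ρ := by
  intro σ
  induction σ with
  | nil =>
      intro ρ h h2
      have : ρ = [] := List.eq_nil_of_length_eq_zero (by simpa using h2)
      subst this
      exact absurd h (lt_irrefl _)
  | cons a s ih =>
      intro ρ h h2
      cases ρ with
      | nil => exact absurd h (by simp)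
      | cons b r =>
          rw [List.cons_append]
          rw [List.cons_lt_cons_iff] at h ⊢
          rcases h with h | ⟨h, h'⟩
          · exact Or.inl h
          · exact Or.inr ⟨h, ih r h' (by simpa using h2)⟩

theorem prefix_of : ∀ (σ τ : List ℚ), σ ≤ τ →
    (∀ ρ : List ℚ, σ < ρ → ρ ≤ τ → σ.length < ρ.length) → σ <+: τ := by
  intro σ
  induction σ with
  | nil => intro τ _ _; exact List.nil_prefix
  | cons a s ih =>
      intro τ h h2
      cases τ with
      | nil => exact absurd h (by simp)
      | cons b t =>
          have hnil : ∀ u : List ℚ, [] ≤ u := by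
            intro u
            cases u with
            | nil => exact le_rfl
            | cons x y => exact le_of_lt (by simp)
          have hcons : ∀ (x : ℚ) (u v : List ℚ), u ≤ v → x :: u ≤ x :: v := by
            intro x u v huv
            rcases huv.lt_or_eq with huv | huv
            · exact le_of_lt (by rw [List.cons_lt_cons_iff]; exact Or.inr ⟨rfl, huv⟩)
            · rw [huv]
          have h : a < b ∨ (a = b ∧ s ≤ t) := by
            rcases h.lt_or_eq with h | h
            · rw [List.cons_lt_cons_iff] at h
              rcases h with h | ⟨h, h'⟩
              · exact Or.inl h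
              · exact Or.inr ⟨h, h'.le⟩
            · rw [List.cons.injEq] at h
              exact Or.inr ⟨h.1, h.2.le⟩
          rcases h with h | ⟨h, h'⟩
          · have h3 := h2 [b] (by rw [List.cons_lt_cons_iff]; exact Or.inl h)
              (hcons b [] t (hnil t))
            simp at h3
          · subst h
            rw [List.cons_prefix_cons]
            refine ⟨rfl, ih t h' ?_⟩
            intro ρ h3 h4
            have h5 := h2 (a :: ρ) (by rw [List.cons_lt_cons_iff]; exact Or.inr ⟨rfl, h3⟩)
              (hcons a ρ t h4)
            simpa using h5

theorem t : Pool.Agent.HLead.CB.S_TREE := by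
  intro φ hφ σ q
  have h1 : φ σ <+: φ (σ ++ [q]) := by
    apply prefix_of
    · rw [φ.le_iff_le]
      by_contra hlt
      push Not at hlt
      have := append_lt [q] (σ ++ [q]) σ hlt (by simp)
      have h2 : σ < σ ++ [q] := by
        clear this hlt
        induction σ with
        | nil => simp
        | cons a s ih =>
            rw [List.cons_append, List.cons_lt_cons_iff]
            exact Or.inr ⟨rfl, ih⟩
      exact absurd (h2.trans hlt) (lt_irrefl _)
    · intro ρ h1 h2
      obtain ⟨ρ', rfl⟩ := φ.surjective ρ
      rw [φ.lt_iff_lt] at h1
      rw [φ.le_iff_le] at h2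
      rw [hφ, hφ]
      by_contra hlen
      push Not at hlen
      exact absurd (append_lt [q] σ ρ' h1 hlen) (not_lt.mpr h2)
  obtain ⟨l, hl⟩ := h1
  have h2 : l.length = 1 := by
    have := congrArg List.length hl
    rw [List.length_append, hφ, hφ, List.length_append] at this
    simpa using this
  obtain ⟨q', rfl⟩ := List.length_eq_one_iff.mp h2
  exact ⟨q', hl.symm⟩

end Pool.Agent.H286.CB
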