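import Pool.Agent.H867.FT.Gen

set_option autoImplicit false

/-!
The trace ideal of the codifferent of a cubic algebra.
-/

namespace Pool.Agent.H286.FT867TRC

theorem mem4 {P : Type} [CommRing P] {a b c d : P} (u v w t : P) :
    u * a + v * b + w * c + t * d ∈ Ideal.span {a, b, c, d} := by
  have ha : a ∈ Ideal.span {a, b, c, d} := Ideal.subset_span (by simp)
  have hb : b ∈ Ideal.span {a, b, c, d} := Ideal.subset_span (by simp)
  have hc : c ∈ Ideal.span {a, b, c, d} := Ideal.subset_span (by simp)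
  have hd : d ∈ Ideal.span {a, b, c, d} := Ideal.subset_span (by simp)
  exact Ideal.add_mem _ (Ideal.add_mem _ (Ideal.add_mem _ (Ideal.mul_mem_left _ _ ha)
    (Ideal.mul_mem_left _ _ hb)) (Ideal.mul_mem_left _ _ hc)) (Ideal.mul_mem_left _ _ hd)

theorem trc : Pool.Agent.H867.FT.S_TRC := by
  intro P R L K _ _ _ _ _ _ _ _ _ _ _ _ _ _ _ C a b c d x y₀ ω θ ha hy₀ hx hω hθ hR hind hC g hg
  have hinj : Function.Injective (algebraMap P L) := IsFractionRing.injective P L
  -- independence over `P`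
  have hindP : ∀ l₀ l₁ l₂ : P, algebraMap P K l₀ + algebraMap P K l₁ * x + algebraMap P K l₂ * x ^ 2 = 0 →
      l₀ = 0 ∧ l₁ = 0 ∧ l₂ = 0 := by
    intro l₀ l₁ l₂ h
    rw [IsScalarTower.algebraMap_apply P L K, IsScalarTower.algebraMap_apply P L K,
      IsScalarTower.algebraMap_apply P L K] at h
    obtain ⟨h0, h1, h2⟩ := hind _ _ _ h
    exact ⟨(map_eq_zero_iff _ hinj).1 h0, (map_eq_zero_iff _ hinj).1 h1, (map_eq_zero_iff _ hinj).1 h2⟩
  have hRK : ∀ r : R, ∃ r₀ r₁ r₂ : P, algebraMap R K r = algebraMap P K r₀ +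
      algebraMap P K r₁ * (algebraMap P K a * x) +
      algebraMap P K r₂ * (algebraMap P K a * x ^ 2 + algebraMap P K b * x + algebraMap P K c) := by
    intro r
    obtain ⟨r₀, r₁, r₂, h⟩ := hR r
    refine ⟨r₀, r₁, r₂, ?_⟩
    rw [← hω, ← hθ, h, map_add, map_add, Algebra.smul_def, Algebra.smul_def, map_mul, map_mul,
      ← IsScalarTower.algebraMap_apply P R K, ← IsScalarTower.algebraMap_apply P R K,
      ← IsScalarTower.algebraMap_apply P R K]
  -- the set `J`
  let J : K → Prop := fun w => ∃ j₀ ∈ Ideal.span {a, b, c, d}, ∃ j₁ j₂ : P,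
    w = algebraMap P K j₀ + algebraMap P K j₁ * (algebraMap P K a * x) +
      algebraMap P K j₂ * (algebraMap P K a * x ^ 2 + algebraMap P K b * x + algebraMap P K c)
  have Jadd : ∀ v w, J v → J w → J (v + w) := by
    rintro v w ⟨i₀, hi, i₁, i₂, rfl⟩ ⟨j₀, hj, j₁, j₂, rfl⟩
    refine ⟨i₀ + j₀, Ideal.add_mem _ hi hj, i₁ + j₁, i₂ + j₂, ?_⟩
    rw [map_add, map_add, map_add]
    ring
  have key : J (algebraMap P K g) := by
    refine Submodule.mul_induction_on hg (fun y hy z hz => ?_) Jadd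
    obtain ⟨g₀, g₁, g₂, hy'⟩ := (hC y).1 hy
    have hz' := Submodule.mem_div_iff_forall_mul_mem.1 hz
    -- `r = z y₀`
    have m1 : y₀ ∈ C := (hC _).2 ⟨1, 0, 0, by simp⟩
    have m2 : y₀ * x ∈ C := (hC _).2 ⟨0, 1, 0, by simp⟩
    obtain ⟨r, hr⟩ := Submodule.mem_one.1 (hz' _ m1)
    obtain ⟨r', hr'⟩ := Submodule.mem_one.1 (hz' _ m2)
    obtain ⟨r₀, r₁, r₂, h1⟩ := hRK r
    obtain ⟨s₀, s₁, s₂, h2⟩ := hRK r'
    rw [hr] at h1
    rw [hr'] at h2
    -- compare coefficients
    have h3 : algebraMap P K (s₀ + s₂ * c + r₂ * d) +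
        algebraMap P K (s₁ * a + s₂ * b - r₀) * x +
        algebraMap P K (s₂ * a - r₁ * a) * x ^ 2 = 0 := by
      simp only [map_add, map_sub, map_mul]
      linear_combination (-1) * h2 + x * h1 + algebraMap P K r₂ * hx
    obtain ⟨e0, e1, e2⟩ := hindP _ _ _ h3
    have e2' : s₂ = r₁ := by
      have : (s₂ - r₁) * a = 0 := by linear_combination e2
      rcases mul_eq_zero.1 this with h | h
      · exact sub_eq_zero.1 h
      · exact absurd h ha
    subst e2'
    have e0' : s₀ = - (s₂ * c) - r₂ * d := by linear_combination e0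
    have e1' : r₀ = s₁ * a + s₂ * b := by linear_combination -e1
    -- the product
    have h4 : y * z = algebraMap P K g₀ * (z * y₀) + algebraMap P K g₁ * (z * (y₀ * x)) +
        algebraMap P K g₂ * (algebraMap P K a * x ^ 2 + algebraMap P K b * x + algebraMap P K c) *
          (z * y₀) := by
      rw [hy', hθ]
      ring
    show J (y * z)
    rw [h4, h1, h2]
    refine ⟨_, mem4 (g₀ * s₁ - g₂ * s₂ * d) (g₀ * s₂ - g₂ * r₂ * d) (-(g₁ * s₂)) (-(g₁ * r₂)),
      g₀ * s₂ + g₁ * s₁ - g₂ * r₂ * d, g₀ * r₂ + g₁ * s₂ + g₂ * (s₁ * a + s₂ * b + r₂ * c), ?_⟩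
    rw [e0', e1']
    simp only [map_add, map_sub, map_mul, map_neg]
    linear_combination (algebraMap P K g₂ * (algebraMap P K s₂ * algebraMap P K a +
      algebraMap P K r₂ * (algebraMap P K a * x + algebraMap P K b))) * hx
  obtain ⟨j₀, hj, j₁, j₂, h⟩ := key
  have h3 : algebraMap P K (j₀ + j₂ * c - g) + algebraMap P K (j₁ * a + j₂ * b) * x +
      algebraMap P K (j₂ * a) * x ^ 2 = 0 := by
    simp only [map_add, map_sub, map_mul]
    linear_combination -h
  obtain ⟨e0, e1, e2⟩ := hindP _ _ _ h3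
  have e2' : j₂ = 0 := by
    rcases mul_eq_zero.1 e2 with h | h
    · exact h
    · exact absurd h ha
  subst e2'
  have : g = j₀ := by linear_combination -e0
  rw [this]
  exact hj

end Pool.Agent.H286.FT867TRC
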