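import Pool.Agent.H979.GW.StmA

/-! Task LOW of project GW (helper979), by helper286. -/

set_option autoImplicit false
set_option linter.unusedSectionVars false
set_option linter.unusedVariables false

open MeasureTheory ProbabilityTheory Filter Topology Set
open scoped ENNReal NNReal

namespace Pool.Agent.H286

open Pool.Agent.H979.GW

namespace GWL

/-- measurability of a random finite sum -/
theorem meas_rsum {ι : Type} [Countable ι] {Ω : Type} [MeasurableSpace Ω] (L : Ω → Finset ι)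
    (hL : ∀ i, MeasurableSet {ω | i ∈ L ω}) (F : ι → Ω → ℝ) (hF : ∀ i, Measurable (F i)) :
    Measurable fun ω => ∑ i ∈ L ω, F i ω := by
  let _ : MeasurableSpace (Finset ι) := ⊤
  have h1 : Measurable L := by
    refine measurable_to_countable' fun S => ?_
    have : L ⁻¹' {S} = ⋂ i, {ω | i ∈ L ω ↔ i ∈ S} := by
      ext ω
      simp only [mem_preimage, mem_singleton_iff, mem_iInter, mem_ofPred_eq]
      exact Finset.ext_iff
    rw [this]
    refine MeasurableSet.iInter fun i => ?_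
    by_cases hi : i ∈ S
    · simp only [hi, iff_true]
      exact hL i
    · simp only [hi, iff_false]
      exact (hL i).compl
  have h2 : Measurable fun p : Finset ι × Ω => ∑ i ∈ p.1, F i p.2 := by
    refine measurable_from_prod_countable_right fun S => ?_
    exact Finset.measurable_sum S fun i _ => hF i
  exact h2.comp (h1.prodMk measurable_id)

variable {Q : Type} [Fintype Q] [DecidableEq Q]

theorem meas_mem_chd (v : Vx Q) (c : Q × ℕ) : MeasurableSet {ω : Env Q | c ∈ chd (ω v)} := by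
  have h : {ω : Env Q | c ∈ chd (ω v)} = (fun ω : Env Q => ω v c.1) ⁻¹' {n | c.2 < n} := by
    ext ω
    simp only [mem_ofPred_eq, mem_preimage, mem_chd]
  rw [h]
  exact ((measurable_pi_apply c.1).comp (measurable_pi_apply v)) trivial

theorem meas_InT (v : Vx Q) : MeasurableSet {ω : Env Q | InT (cht ω) v} := by
  induction v with
  | nil => simp [InT]
  | cons c v ih => exact ih.inter (meas_mem_chd v c)

theorem meas_Lev (k : ℕ) (v : Vx Q) : MeasurableSet {ω : Env Q | v ∈ Lev (cht ω) k} := by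
  simp only [mem_Lev]
  by_cases h : v.length = k
  · simp only [h, true_and]
    exact meas_InT v
  · simp [h]

theorem meas_sh (v : Vx Q) : Measurable (sh (Q := Q) v) :=
  measurable_pi_lambda _ fun u => measurable_pi_apply (u ++ v)

theorem meas_TT {f : Q → Env Q → ℝ} (hf : ∀ b, Measurable (f b)) (a : Q) :
    Measurable (TT f a) :=
  meas_rsum (fun ω : Env Q => chd (ω [])) (meas_mem_chd []) (fun c ω => f c.1 (sh [c] ω))
    fun c => (hf c.1).comp (meas_sh [c])

theorem meas_iter {f : Q → Env Q → ℝ} (hf : ∀ b, Measurable (f b)) (k : ℕ) (a : Q) :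
    Measurable (TT^[k] f a) := by
  induction k generalizing a with
  | zero => exact hf a
  | succ k ih =>
    rw [Function.iterate_succ_apply']
    exact meas_TT ih a

theorem meas_WW (ρ : ℝ) (e : Q → ℝ) (a : Q) : Measurable (WW ρ e a) := by
  refine Measurable.ennreal_toReal ?_
  refine Measurable.limsup fun k => ?_
  refine Measurable.ennreal_ofReal ?_
  exact (meas_iter (fun b => measurable_const) k a).const_mul _

theorem meas_Wv (ρ : ℝ) (e : Q → ℝ) (a : Q) (v : Vx Q) :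
    Measurable fun ω : Env Q => Wv ρ e a ω v :=
  (meas_WW ρ e (ty a v)).comp (meas_sh v)

theorem meas_Sf (ρ : ℝ) (e : Q → ℝ) (a : Q) (v : Vx Q) :
    Measurable fun ω : Env Q => Sf (Wv ρ e a ω) v := by
  induction v with
  | nil => exact measurable_const
  | cons c v ih => exact (meas_Wv ρ e a (c :: v)).add ih

theorem meas_card (v : Vx Q) : Measurable fun ω : Env Q => ((cht ω v).card : ℝ) := by
  have h : (fun ω : Env Q => ((cht ω v).card : ℝ)) = fun ω => ∑ b, (ω v b : ℝ) := by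
    funext ω
    rw [cht, card_chd]
    push_cast
    rfl
  rw [h]
  refine Finset.measurable_sum _ fun b _ => ?_
  exact (measurable_from_nat (f := fun n : ℕ => (n : ℝ))).comp
    ((measurable_pi_apply b).comp (measurable_pi_apply v))

/-- the weighted number of bad vertices of generation `i` -/
noncomputable def Ph (ρ : ℝ) (e : Q → ℝ) (η ε : ℝ) (i : ℕ) (b : Q) (ω : Env Q) : ℝ :=
  ∑ v ∈ Lev (cht ω) i, (ρ + (cht ω v).card) *
      (if (ρ - 1) * Sf (Wv ρ e b ω) v - ρ * Wv ρ e b ω v + ρ * Wv ρ e b ω [] <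
        ((ρ - 1) * η - ε) * i then 1 else 0)

theorem meas_Ph (ρ : ℝ) (e : Q → ℝ) (η ε : ℝ) (i : ℕ) (b : Q) : Measurable (Ph ρ e η ε i b) := by
  refine meas_rsum (fun ω : Env Q => Lev (cht ω) i) (meas_Lev i) (fun v ω => (ρ + (cht ω v).card) *
      (if (ρ - 1) * Sf (Wv ρ e b ω) v - ρ * Wv ρ e b ω v + ρ * Wv ρ e b ω [] <
        ((ρ - 1) * η - ε) * i then (1 : ℝ) else 0)) fun v => ?_
  refine ((meas_card v).const_add ρ).mul ?_
  refine Measurable.ite ?_ measurable_const measurable_const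
  exact measurableSet_lt ((((meas_Sf ρ e b v).const_mul _).sub ((meas_Wv ρ e b v).const_mul _)).add
    ((meas_Wv ρ e b []).const_mul _)) measurable_const

theorem Ph_nonneg {ρ : ℝ} (hρ : 0 ≤ ρ) (e : Q → ℝ) (η ε : ℝ) (i : ℕ) (b : Q) (ω : Env Q) :
    0 ≤ Ph ρ e η ε i b ω := by
  refine Finset.sum_nonneg fun v _ => mul_nonneg (by positivity) ?_
  split_ifs <;> norm_num

theorem sh_sh (u w : Vx Q) (ω : Env Q) : sh w (sh u ω) = sh (w ++ u) ω := by
  funext x
  simp only [sh, List.append_assoc]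

theorem ty_ty (a : Q) (u w : Vx Q) : ty (ty a u) w = ty a (w ++ u) := by
  cases w with
  | nil => rfl
  | cons c w => rfl

theorem Wv_sub (ρ : ℝ) (e : Q → ℝ) (a : Q) (ω : Env Q) (u w : Vx Q) :
    Wv ρ e (ty a u) (sh u ω) w = Wv ρ e a ω (w ++ u) := by
  simp only [Wv, sh_sh, ty_ty]

theorem Sf_app (W : Vx Q → ℝ) (u w : Vx Q) :
    Sf W (w ++ u) = Sf (fun x => W (x ++ u)) w + Sf W u := by
  induction w with
  | nil => simp [Sf]
  | cons c w ih =>
    simp only [List.cons_append, Sf, ih]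
    ring

theorem Sf_sub (ρ : ℝ) (e : Q → ℝ) (a : Q) (ω : Env Q) (u w : Vx Q) :
    Sf (Wv ρ e (ty a u) (sh u ω)) w = Sf (Wv ρ e a ω) (w ++ u) - Sf (Wv ρ e a ω) u := by
  rw [Sf_app, show (Wv ρ e (ty a u) (sh u ω)) = fun x => Wv ρ e a ω (x ++ u) from
    funext fun x => Wv_sub ρ e a ω u x]
  ring

/-- the indicator that the vertex `v` is bad at the ancestor at distance `i` -/
noncomputable def bi (ρ : ℝ) (W : Vx Q → ℝ) (η ε : ℝ) (i : ℕ) (v : Vx Q) : ℝ :=
  if (ρ - 1) * (Sf W v - Sf W (v.drop i)) - ρ * W v + ρ * W (v.drop i) < ((ρ - 1) * η - ε) * i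
    then 1 else 0

theorem bi_nonneg (ρ : ℝ) (W : Vx Q → ℝ) (η ε : ℝ) (i : ℕ) (v : Vx Q) :
    0 ≤ bi ρ W η ε i v := by
  unfold bi
  split_ifs <;> norm_num

/-- the sum over a generation of the vertices bad at distance `i` -/
theorem sum_bi (hLEV : S_LEV Q) (ρ : ℝ) (e : Q → ℝ) (η ε : ℝ) (a : Q) (ω : Env Q) (j i : ℕ) :
    ∑ v ∈ Lev (cht ω) (j + i), (ρ + (cht ω v).card) * bi ρ (Wv ρ e a ω) η ε i v =
      TT^[j] (Ph ρ e η ε i) a ω := by
  rw [hLEV.2 ω j i, hLEV.1]
  refine Finset.sum_congr rfl fun u _ => ?_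
  unfold Ph
  refine Finset.sum_congr rfl fun w hw => ?_
  have hwl : w.length = i := (mem_Lev.1 hw).1
  have hd : (w ++ u).drop i = u := by
    rw [← hwl]
    exact List.drop_left
  have hc : cht ω (w ++ u) = cht (sh u ω) w := rfl
  unfold bi
  rw [hd, hc, Sf_sub, Wv_sub, Wv_sub, List.nil_append]

theorem mA_nonneg (q : Q → Measure (Q → ℕ)) (a b : Q) : 0 ≤ mA q a b :=
  integral_nonneg fun x => Nat.cast_nonneg _

/-- iterated first moments -/
theorem iter_int {q : Q → Measure (Q → ℕ)} {ρ : ℝ} {e : Q → ℝ} (h1 : S_M1 q)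
    (hright : ∀ a, ∑ b, mA q a b * e b = ρ * e a) {f : Q → Env Q → ℝ}
    (hf : ∀ b, Integrable (f b) (law q b)) {M : ℝ}
    (hM : ∀ b, ∫ ω, f b ω ∂(law q b) ≤ M * e b) (j : ℕ) (a : Q) :
    Integrable (TT^[j] f a) (law q a) ∧ ∫ ω, TT^[j] f a ω ∂(law q a) ≤ M * ρ ^ j * e a := by
  induction j generalizing a with
  | zero => exact ⟨hf a, by simpa using hM a⟩
  | succ j ih =>
    rw [Function.iterate_succ_apply']
    have h2 := h1.2 (TT^[j] f) (fun b => (ih b).1) a
    refine ⟨h2.1, ?_⟩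
    rw [h2.2]
    calc ∑ b, mA q a b * ∫ ω, TT^[j] f b ω ∂(law q b)
        ≤ ∑ b, mA q a b * (M * ρ ^ j * e b) :=
          Finset.sum_le_sum fun b _ => mul_le_mul_of_nonneg_left (ih b).2 (mA_nonneg q a b)
      _ = M * ρ ^ j * ∑ b, mA q a b * e b := by
          rw [Finset.mul_sum]
          exact Finset.sum_congr rfl fun b _ => by ring
      _ = M * ρ ^ (j + 1) * e a := by rw [hright, pow_succ]; ring

theorem iter_nonneg {f : Q → Env Q → ℝ} (hf : ∀ b ω, 0 ≤ f b ω) (k : ℕ) (a : Q) (ω : Env Q) :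
    0 ≤ TT^[k] f a ω := by
  induction k generalizing a ω with
  | zero => exact hf a ω
  | succ k ih =>
    rw [Function.iterate_succ_apply']
    exact Finset.sum_nonneg fun c _ => ih c.1 _

open Classical in
/-- the upper bound -/
noncomputable def YH (ρ : ℝ) (e : Q → ℝ) (η : ℝ) (a : Q) (ε : ℝ) (A H : ℕ) (ω : Env Q) : ℝ :=
  (H : ℝ) ^ 2 * ∑ k ∈ Finset.range (A * H + 1),
    ∑ i ∈ (Finset.range (k + 1)).filter (fun i : ℕ => ε * (H : ℝ) ≤ (i : ℝ)),
      (ρ⁻¹) ^ k * TT^[k - i] (Ph ρ e η ε i) a ω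

open Classical in
theorem X_le_Y (hLEV : S_LEV Q) (q : Q → Measure (Q → ℕ)) {ρ : ℝ} (hρ : 0 < ρ) (e m : Q → ℝ)
    (a : Q) (ω : Env Q) (ε : ℝ) (A H : ℕ) :
    (H : ℝ) ^ 2 *
    ∑ k ∈ Finset.range (A * H + 1), ∑ v ∈ Lev (cht ω) k, (ρ⁻¹) ^ k * (ρ + (cht ω v).card) *
      (if Bad ρ (Wv ρ e a ω) (etaA q ρ e m) ε (ε * H) v then 1 else 0) ≤
      YH ρ e (etaA q ρ e m) a ε A H ω := by
  unfold YH
  refine mul_le_mul_of_nonneg_left (Finset.sum_le_sum fun k _ => ?_) (by positivity)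
  have h1 : ∀ i ∈ (Finset.range (k + 1)).filter (fun i : ℕ => ε * (H : ℝ) ≤ (i : ℝ)),
      (ρ⁻¹) ^ k * TT^[k - i] (Ph ρ e (etaA q ρ e m) ε i) a ω =
        ∑ v ∈ Lev (cht ω) k, (ρ⁻¹) ^ k * (ρ + (cht ω v).card) *
          bi ρ (Wv ρ e a ω) (etaA q ρ e m) ε i v := by
    intro i hi
    rw [Finset.mem_filter, Finset.mem_range] at hi
    rw [← sum_bi hLEV, Finset.mul_sum, show k - i + i = k by omega]
    exact Finset.sum_congr rfl fun v _ => by ring
  rw [Finset.sum_congr rfl h1, Finset.sum_comm]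
  refine Finset.sum_le_sum fun v hv => ?_
  rw [← Finset.mul_sum]
  refine mul_le_mul_of_nonneg_left ?_ (by positivity)
  split_ifs with hbad
  · obtain ⟨i, hi, hxi, hlt⟩ := hbad
    have hvl : v.length = k := (mem_Lev.1 hv).1
    have hmem : i ∈ (Finset.range (k + 1)).filter (fun i : ℕ => ε * (H : ℝ) ≤ (i : ℝ)) := by
      rw [Finset.mem_filter, Finset.mem_range]
      exact ⟨by omega, hxi⟩
    refine le_trans (le_of_eq ?_) (Finset.single_le_sum
      (f := fun i => bi ρ (Wv ρ e a ω) (etaA q ρ e m) ε i v) (fun i _ => bi_nonneg _ _ _ _ _ _) hmem)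
    simp only [bi]
    rw [if_pos hlt]
  · exact Finset.sum_nonneg fun i _ => bi_nonneg _ _ _ _ _ _

open Classical in
theorem main (q : Q → Measure (Q → ℕ)) [∀ a, IsProbabilityMeasure (q a)] {ρ : ℝ} {e m : Q → ℝ}
    {C r : ℝ} (hy : Hyp q ρ e m C r) (h1 : S_M1 q) (hLEV : S_LEV Q) (hT : S_TAIL q ρ e m)
    (a : Q) (ε : ℝ) (hε : 0 < ε) (A : ℕ) :
    ∀ᵐ ω ∂(law q a), Tendsto (fun H : ℕ => YH ρ e (etaA q ρ e m) a ε A H ω) atTop (𝓝 0) := by
  obtain ⟨K, c, hK, hc, hT⟩ := hT ε hε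
  have hρ1 := hy.rho
  have hρ : 0 < ρ := by linarith
  have he := hy.pf.e_pos
  have hKe : ∀ b, K ≤ K * (∑ b', (e b')⁻¹) * e b := by
    intro b
    have h2 : (e b)⁻¹ ≤ ∑ b', (e b')⁻¹ :=
      Finset.single_le_sum (f := fun b' => (e b')⁻¹) (fun b' _ => (inv_pos.2 (he b')).le)
        (Finset.mem_univ b)
    have h3 : 1 ≤ (∑ b', (e b')⁻¹) * e b := by
      calc (1 : ℝ) = (e b)⁻¹ * e b := (inv_mul_cancel₀ (he b).ne').symm
        _ ≤ _ := mul_le_mul_of_nonneg_right h2 (he b).le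
    calc K = K * 1 := (mul_one K).symm
      _ ≤ K * ((∑ b', (e b')⁻¹) * e b) := mul_le_mul_of_nonneg_left h3 hK
      _ = _ := by ring
  set K₂ : ℝ := K * ∑ b', (e b')⁻¹ with hK₂
  have hK₂0 : 0 ≤ K₂ :=
    mul_nonneg hK (Finset.sum_nonneg fun b' _ => (inv_pos.2 (he b')).le)
  set η : ℝ := etaA q ρ e m with hη
  have hPnn : ∀ i b ω, 0 ≤ Ph ρ e η ε i b ω := fun i b ω => Ph_nonneg hρ.le e η ε i b ω
  have hPint : ∀ i b, Integrable (Ph ρ e η ε i b) (law q b) := by
    intro i b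
    refine ⟨(meas_Ph ρ e η ε i b).aestronglyMeasurable, ?_⟩
    rw [hasFiniteIntegral_iff_ofReal (Eventually.of_forall fun ω => hPnn i b ω)]
    exact (hT i b).trans_lt ENNReal.ofReal_lt_top
  have hPle : ∀ i b, ∫ ω, Ph ρ e η ε i b ω ∂(law q b) ≤ K₂ * (ρ * Real.exp (-c)) ^ i * e b := by
    intro i b
    have h2 : ∫ ω, Ph ρ e η ε i b ω ∂(law q b) ≤ K * (ρ * Real.exp (-c)) ^ i := by
      have h3 := hT i b
      rw [show (∫⁻ ω, ENNReal.ofReal (∑ v ∈ Lev (cht ω) i, (ρ + (cht ω v).card) *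
        (if (ρ - 1) * Sf (Wv ρ e b ω) v - ρ * Wv ρ e b ω v + ρ * Wv ρ e b ω [] <
          ((ρ - 1) * etaA q ρ e m - ε) * i then 1 else 0)) ∂(law q b)) =
          ∫⁻ ω, ENNReal.ofReal (Ph ρ e η ε i b ω) ∂(law q b) from rfl,
        ← ofReal_integral_eq_lintegral_ofReal (hPint i b)
          (Eventually.of_forall fun ω => hPnn i b ω)] at h3
      exact (ENNReal.ofReal_le_ofReal_iff (by positivity)).1 h3
    refine h2.trans ?_
    calc K * (ρ * Real.exp (-c)) ^ i ≤ (K₂ * e b) * (ρ * Real.exp (-c)) ^ i :=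
          mul_le_mul_of_nonneg_right (hKe b) (by positivity)
      _ = _ := by ring
  have hit : ∀ i j, Integrable (TT^[j] (Ph ρ e η ε i) a) (law q a) ∧
      ∫ ω, TT^[j] (Ph ρ e η ε i) a ω ∂(law q a) ≤
        K₂ * (ρ * Real.exp (-c)) ^ i * ρ ^ j * e a := fun i j =>
    iter_int h1 hy.pf.right (hPint i) (hPle i) j a
  have hYint : ∀ H, Integrable (YH ρ e η a ε A H) (law q a) := by
    intro H
    refine Integrable.const_mul ?_ _
    refine integrable_finsetSum _ fun k _ => integrable_finsetSum _ fun i _ => ?_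
    exact (hit i (k - i)).1.const_mul _
  have hYnn : ∀ H ω, 0 ≤ YH ρ e η a ε A H ω := by
    intro H ω
    refine mul_nonneg (by positivity) (Finset.sum_nonneg fun k _ => Finset.sum_nonneg fun i _ => ?_)
    exact mul_nonneg (by positivity) (iter_nonneg (hPnn i) _ _ _)
  set s : ℝ := Real.exp (-(c * ε)) with hs
  have hs0 : 0 < s := Real.exp_pos _
  have hs1 : s < 1 := by
    rw [hs, Real.exp_lt_one_iff]
    have : 0 < c * ε := by positivity
    linarith
  have hterm : ∀ H k : ℕ, ∀ i ∈ (Finset.range (k + 1)).filter (fun i : ℕ => ε * (H : ℝ) ≤ (i : ℝ)),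
      ∫ ω, (ρ⁻¹) ^ k * TT^[k - i] (Ph ρ e η ε i) a ω ∂(law q a) ≤ K₂ * e a * s ^ H := by
    intro H k i hi
    rw [Finset.mem_filter, Finset.mem_range] at hi
    rw [integral_const_mul]
    have h2 : Real.exp (-c) ^ i ≤ s ^ H := by
      rw [hs, ← Real.exp_nat_mul, ← Real.exp_nat_mul, Real.exp_le_exp]
      have := mul_le_mul_of_nonneg_left hi.2 hc.le
      linarith
    have h3 : (ρ⁻¹) ^ k * (ρ ^ i * ρ ^ (k - i)) = 1 := by
      rw [← pow_add, show i + (k - i) = k by omega, ← mul_pow, inv_mul_cancel₀ hρ.ne', one_pow]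
    calc (ρ⁻¹) ^ k * ∫ ω, TT^[k - i] (Ph ρ e η ε i) a ω ∂(law q a)
        ≤ (ρ⁻¹) ^ k * (K₂ * (ρ * Real.exp (-c)) ^ i * ρ ^ (k - i) * e a) :=
          mul_le_mul_of_nonneg_left (hit i (k - i)).2 (by positivity)
      _ = ((ρ⁻¹) ^ k * (ρ ^ i * ρ ^ (k - i))) * (K₂ * e a * Real.exp (-c) ^ i) := by
          rw [mul_pow]; ring
      _ = K₂ * e a * Real.exp (-c) ^ i := by rw [h3, one_mul]
      _ ≤ K₂ * e a * s ^ H :=
          mul_le_mul_of_nonneg_left h2 (mul_nonneg hK₂0 (he a).le)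
  have hYle : ∀ H : ℕ, ∫ ω, YH ρ e η a ε A H ω ∂(law q a) ≤
      (K₂ * e a) * ((H : ℝ) ^ 2 * ((A * H + 1 : ℕ) : ℝ) ^ 2 * s ^ H) := by
    intro H
    unfold YH
    rw [integral_const_mul, integral_finsetSum]
    swap
    · exact fun k _ => integrable_finsetSum _ fun i _ => (hit i (k - i)).1.const_mul _
    have h2 : ∀ k ∈ Finset.range (A * H + 1),
        ∫ ω, ∑ i ∈ (Finset.range (k + 1)).filter (fun i : ℕ => ε * (H : ℝ) ≤ (i : ℝ)),
          (ρ⁻¹) ^ k * TT^[k - i] (Ph ρ e η ε i) a ω ∂(law q a) ≤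
          ((A * H + 1 : ℕ) : ℝ) * (K₂ * e a * s ^ H) := by
      intro k hk
      rw [Finset.mem_range] at hk
      rw [integral_finsetSum]
      swap
      · exact fun i _ => (hit i (k - i)).1.const_mul _
      refine (Finset.sum_le_sum (hterm H k)).trans ?_
      rw [Finset.sum_const, nsmul_eq_mul]
      refine mul_le_mul_of_nonneg_right ?_ (by have := (he a).le; positivity)
      have h3 := Finset.card_filter_le (Finset.range (k + 1)) (fun i : ℕ => ε * (H : ℝ) ≤ (i : ℝ))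
      rw [Finset.card_range] at h3
      exact_mod_cast h3.trans (by omega)
    calc (H : ℝ) ^ 2 * _ ≤ (H : ℝ) ^ 2 * ∑ k ∈ Finset.range (A * H + 1),
          ((A * H + 1 : ℕ) : ℝ) * (K₂ * e a * s ^ H) :=
          mul_le_mul_of_nonneg_left (Finset.sum_le_sum h2) (by positivity)
      _ = _ := by
          rw [Finset.sum_const, Finset.card_range, nsmul_eq_mul]
          ring
  refine ae_tendsto_zero_real hYint ?_
  have habs : (fun H => ∫ ω, |YH ρ e η a ε A H ω| ∂(law q a)) =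
      fun H => ∫ ω, YH ρ e η a ε A H ω ∂(law q a) := by
    funext H
    exact integral_congr_ae (Eventually.of_forall fun ω => abs_of_nonneg (hYnn H ω))
  rw [habs]
  refine Summable.of_nonneg_of_le (fun H => integral_nonneg (hYnn H)) hYle ?_
  refine Summable.mul_left _ ?_
  have hsn : ‖s‖ < 1 := by rwa [Real.norm_of_nonneg hs0.le]
  have h4 := summable_pow_mul_geometric_of_norm_lt_one 4 hsn
  have h3 := summable_pow_mul_geometric_of_norm_lt_one 3 hsn
  have h2 := summable_pow_mul_geometric_of_norm_lt_one 2 hsn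
  have h5 := ((h4.mul_left ((A : ℝ) ^ 2)).add (h3.mul_left (2 * (A : ℝ)))).add h2
  refine h5.congr fun H => ?_
  push_cast
  ring

end GWL

open GWL in
open Classical in
theorem gw_low {Q : Type} [Fintype Q] [DecidableEq Q] (q : Q → Measure (Q → ℕ))
    [∀ a, IsProbabilityMeasure (q a)] {ρ : ℝ} {e m : Q → ℝ} {C r : ℝ} (hy : Hyp q ρ e m C r)
    (h1 : S_M1 q) (hLEV : S_LEV Q) (hT : S_TAIL q ρ e m) : S_LOW q ρ e m := by
  intro a
  have hρ : 0 < ρ := by linarith [hy.rho]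
  have h2 : ∀ᵐ ω ∂(law q a), ∀ n : ℕ, ∀ A : ℕ,
      Tendsto (fun H : ℕ => YH ρ e (etaA q ρ e m) a (1 / ((n : ℝ) + 1)) A H ω) atTop (𝓝 0) := by
    rw [ae_all_iff]
    intro n
    rw [ae_all_iff]
    intro A
    exact main q hy h1 hLEV hT a _ (by positivity) A
  filter_upwards [h2] with ω hω ε hε A
  obtain ⟨n, hn⟩ := exists_nat_one_div_lt hε
  have h3 := hω n A
  refine squeeze_zero (fun H => ?_) (fun H => ?_) h3
  · refine mul_nonneg (by positivity) (Finset.sum_nonneg fun k _ => Finset.sum_nonneg fun v _ => ?_)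
    refine mul_nonneg (by positivity) ?_
    split_ifs <;> norm_num
  · refine le_trans ?_ (X_le_Y hLEV q hρ e m a ω (1 / ((n : ℝ) + 1)) A H)
    refine mul_le_mul_of_nonneg_left (Finset.sum_le_sum fun k _ => Finset.sum_le_sum fun v _ => ?_)
      (by positivity)
    refine mul_le_mul_of_nonneg_left ?_ (by positivity)
    split_ifs with hb hb'
    · exact le_rfl
    · exfalso
      apply hb'
      obtain ⟨i, hi, hx, hlt⟩ := hb
      refine ⟨i, hi, le_trans ?_ hx, lt_of_lt_of_le hlt ?_⟩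
      · exact mul_le_mul_of_nonneg_right hn.le (Nat.cast_nonneg _)
      · exact mul_le_mul_of_nonneg_right (by linarith) (Nat.cast_nonneg _)
    · norm_num
    · exact le_rfl

end Pool.Agent.H286
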