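import Pool.Agent.H979.GW.StmA

/-! Task MZ of project GW (helper979), by helper286. -/

set_option autoImplicit false

open MeasureTheory ProbabilityTheory Filter Topology Set
open scoped ENNReal NNReal

namespace Pool.Agent.H286

open Pool.Agent.H979.GW

theorem gw_mz {Q : Type} [Fintype Q] [DecidableEq Q] (q : Q → Measure (Q → ℕ))
    [∀ a, IsProbabilityMeasure (q a)] (h1 : S_M1 q) (h2 : S_M2 q) : S_MZ q := by
  intro f hf hf0 k
  induction k with
  | zero =>
    intro a
    refine ⟨hf a, hf0 a, ?_⟩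
    simp only [Function.iterate_zero, id_eq, pow_zero, Matrix.one_apply, ite_mul, one_mul,
      zero_mul, Finset.sum_ite_eq, Finset.mem_univ, if_true]
  | succ k ih =>
    intro a
    have hg : ∀ b, MemLp (TT^[k] f b) 2 (law q b) := fun b => (ih b).1
    have hg0 : ∀ b, ∫ ω, TT^[k] f b ω ∂(law q b) = 0 := fun b => (ih b).2.1
    have hint : ∀ b, Integrable (TT^[k] f b) (law q b) := fun b =>
      (hg b).integrable (by norm_num)
    have e1 := h1.2 (TT^[k] f) hint a
    have e2 := h2 (TT^[k] f) hg a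
    have hs : TT^[k + 1] f = TT (TT^[k] f) := Function.iterate_succ_apply' TT k f
    rw [hs]
    refine ⟨e2.1, ?_, ?_⟩
    · rw [e1.2]
      exact Finset.sum_eq_zero fun b _ => by rw [hg0 b, mul_zero]
    · rw [e2.2]
      have h3 : ∫ x, (∑ b, (x b : ℝ) * ∫ ω, TT^[k] f b ω ∂(law q b)) ^ 2 ∂(q a) = 0 := by
        have : (fun x : Q → ℕ => (∑ b, (x b : ℝ) * ∫ ω, TT^[k] f b ω ∂(law q b)) ^ 2) =
            fun _ => 0 := by
          funext x
          rw [Finset.sum_eq_zero fun b _ => by rw [hg0 b, mul_zero]]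
          norm_num
        rw [this]
        exact integral_zero _ _
      rw [h3, add_zero, pow_succ']
      calc ∑ b, mA q a b * (∫ ω, TT^[k] f b ω ^ 2 ∂(law q b) -
            (∫ ω, TT^[k] f b ω ∂(law q b)) ^ 2)
          = ∑ b, ∑ c, mA q a b * ((mA q ^ k) b c * ∫ ω, f c ω ^ 2 ∂(law q c)) := by
            refine Finset.sum_congr rfl fun b _ => ?_
            rw [hg0 b, (ih b).2.2, ← Finset.mul_sum]
            ring
        _ = ∑ c, ∑ b, mA q a b * ((mA q ^ k) b c * ∫ ω, f c ω ^ 2 ∂(law q c)) :=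
            Finset.sum_comm
        _ = ∑ c, (mA q * mA q ^ k) a c * ∫ ω, f c ω ^ 2 ∂(law q c) := by
            refine Finset.sum_congr rfl fun c _ => ?_
            rw [Matrix.mul_apply, Finset.sum_mul]
            exact Finset.sum_congr rfl fun b _ => by ring

end Pool.Agent.H286
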