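import Pool.Agent.H724.ST.Stm

/-!
First runs are compatible.
-/

set_option autoImplicit false

namespace Pool.Agent.H286.STEQ

open Pool.Agent.H724.ST

theorem rn_succ (a : ℕ) : rn (a + 1) = false :: rn a := rfl

theorem run_inj {a b : ℕ} {z z' : List Bool} (h : rn a ++ true :: z = rn b ++ true :: z') :
    a = b ∧ z = z' := by
  induction a generalizing b with
  | zero =>
    cases b with
    | zero =>
      refine ⟨rfl, ?_⟩
      have h1 : true :: z = true :: z' := h
      exact (List.cons.inj h1).2
    | succ b =>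
      have h1 : true :: z = false :: (rn b ++ true :: z') := h
      exact absurd (List.cons.inj h1).1 (by decide)
  | succ a ih =>
    cases b with
    | zero =>
      have h1 : false :: (rn a ++ true :: z) = true :: z' := h
      exact absurd (List.cons.inj h1).1 (by decide)
    | succ b =>
      have h1 : false :: (rn a ++ true :: z) = false :: (rn b ++ true :: z') := h
      obtain ⟨h2, h3⟩ := ih (List.cons.inj h1).2
      exact ⟨by rw [h2], h3⟩

theorem ex_run : ∀ u : List Bool, true ∈ u → ∃ e z, u = rn e ++ true :: z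
  | [], h => absurd h List.not_mem_nil
  | true :: u, _ => ⟨0, u, rfl⟩
  | false :: u, h => by
    obtain ⟨e, z, hz⟩ := ex_run u (by simpa using h)
    exact ⟨e + 1, z, by rw [hz]; rfl⟩

theorem mem_run (a : ℕ) (z : List Bool) : true ∈ rn a ++ true :: z := by simp

theorem mod_run {x q N : ℕ} (h1 : 1 ≤ q) (h2 : q ≤ N) :
    ((x + 1) * (N + 1) - q) % (N + 1) = N + 1 - q := by
  have h3 : (x + 1) * (N + 1) - q = (N + 1) * x + (N + 1 - q) := by
    have h4 : (x + 1) * (N + 1) = (N + 1) * x + (N + 1) := by ring
    omega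
  rw [h3, Nat.mul_add_mod, Nat.mod_eq_of_lt (by omega)]

theorem mod_good {C : Chk} {e : ℕ} (h : good C (e + 1) = true) : e % (C.N + 1) = C.N := by
  unfold good at h
  simp only [Bool.and_eq_true, decide_eq_true_eq] at h
  obtain ⟨k, hk⟩ := Nat.dvd_of_mod_eq_zero h.1.1.1
  cases k with
  | zero => simp at hk
  | succ k =>
    have h3 : e = (C.N + 1) * k + C.N := by
      have h4 : (C.N + 1) * (k + 1) = (C.N + 1) * k + (C.N + 1) := by ring
      omega
    rw [h3, Nat.mul_add_mod, Nat.mod_eq_of_lt (by omega)]

/-- **ST-EQ.** -/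
theorem eq_ (h1 : S_SC) (h2 : S_OK) (h3 : S_GD) (h4 : S_INV) : S_EQ := by
  intro C hC u v h
  have hok : ∀ u v, OK C (u ++ v) → OK C u := (h1 C).2.2.2.2.2.2.2
  induction h with
  | nil =>
    intro _ _
    refine ⟨?_, ?_, ?_⟩
    · intro al z be z' hu
      exact absurd (hu ▸ mem_run al z) List.not_mem_nil
    · intro be z' _ hv
      exact absurd (hv ▸ mem_run be z') List.not_mem_nil
    · intro al z _ hu
      exact absurd (hu ▸ mem_run al z) List.not_mem_nil
  | @cons p1 p2 u' v' hL hS ih =>
    intro hu hv
    obtain ⟨i1, i2, i3⟩ := ih (h2 C p1 u' hu) (h2 C p2 v' hv)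
    -- both pieces contain `true`
    have both : ∀ (q x y : ℕ) (z z' : List Bool), 1 ≤ q → q ≤ C.N →
        p1 = rn ((x + 1) * (C.N + 1) - q) ++ true :: z →
        p2 = rn ((y + 1) * (C.N + 1) - q) ++ true :: z' →
        (∀ al z be z', p1 ++ u' = rn al ++ true :: z → p2 ++ v' = rn be ++ true :: z' →
          al % (C.N + 1) = be % (C.N + 1) ∧ al % (C.N + 1) ≠ 0) ∧
        (∀ be z', true ∉ p1 ++ u' → p2 ++ v' = rn be ++ true :: z' → be % (C.N + 1) = C.N) ∧
        (∀ al z, true ∉ p2 ++ v' → p1 ++ u' = rn al ++ true :: z → al % (C.N + 1) = C.N) := by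
      intro q x y z z' hq1 hq2 hp1 hp2
      rw [hp1, hp2, List.append_assoc, List.append_assoc, List.cons_append, List.cons_append]
      refine ⟨?_, ?_, ?_⟩
      · intro al w be w' hu hv
        rw [← (run_inj hu).1, ← (run_inj hv).1, mod_run hq1 hq2, mod_run hq1 hq2]
        exact ⟨rfl, by omega⟩
      · intro be w' hn
        exact absurd (mem_run _ _) hn
      · intro al w hn
        exact absurd (mem_run _ _) hn
    rcases h4 C hC p1 p2 (hok _ _ hu) (hok _ _ hv) hL with ⟨x, hx, hp1, hp2⟩ | ⟨y, hy, hp1, hp2⟩ |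
      ⟨q, x, y, q', hq1, hq2, hx, hy, hq', -, hp1, hp2⟩ |
      ⟨q, x, y, z, z', hq1, hq2, hx, hy, hd, hp1, hp2⟩
    · have e1 : p1 ++ u' = rn ((x + 1) * (C.N + 1) - 1) ++ true :: (false :: u') := by
        rw [hp1]
        unfold blk
        rw [List.append_assoc]
        rfl
      have e2 : p2 ++ v' = v' := by rw [hp2]; rfl
      have e3 := mod_run (x := x) le_rfl hC.hN
      rw [e1] at hu ⊢
      rw [e2]
      rw [Nat.add_sub_cancel] at e3
      refine ⟨?_, ?_, ?_⟩
      · intro al z be z' hz hz'
        rw [← (run_inj hz).1, e3]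
        refine ⟨?_, by have := hC.hN; omega⟩
        by_cases ht : true ∈ u'
        · obtain ⟨e, w, hw⟩ := ex_run u' ht
          have hg : good C (e + 1) = true := by
            refine h3 C ((x + 1) * (C.N + 1) - 1) (e + 1) w ?_
            rw [hw] at hu
            exact hu
          rw [← (i1 e w be z' hw hz').1, mod_good hg]
        · exact (i2 be z' ht hz').symm
      · intro be z' hn
        exact absurd (mem_run _ _) hn
      · intro al z _ hz
        rw [← (run_inj hz).1, e3]
    · have e1 : p2 ++ v' = rn ((y + 1) * (C.N + 1) - 1) ++ true :: (false :: v') := by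
        rw [hp2]
        unfold blk
        rw [List.append_assoc]
        rfl
      have e2 : p1 ++ u' = u' := by rw [hp1]; rfl
      have e3 := mod_run (x := y) le_rfl hC.hN
      rw [e1] at hv ⊢
      rw [e2]
      rw [Nat.add_sub_cancel] at e3
      refine ⟨?_, ?_, ?_⟩
      · intro al z be z' hz hz'
        rw [← (run_inj hz').1, e3]
        have key : al % (C.N + 1) = C.N := by
          by_cases ht : true ∈ v'
          · obtain ⟨e, w, hw⟩ := ex_run v' ht
            have hg : good C (e + 1) = true := by
              refine h3 C ((y + 1) * (C.N + 1) - 1) (e + 1) w ?_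
              rw [hw] at hv
              exact hv
            rw [(i1 al z e w hz hw).1, mod_good hg]
          · exact i3 al z ht hz
        exact ⟨key, by have := hC.hN; omega⟩
      · intro be z' _ hz
        rw [← (run_inj hz).1, e3]
      · intro al z hn
        exact absurd (mem_run _ _) hn
    · exact both q x y _ _ hq1 hq2 hp1 hp2
    · exact both q x y _ _ hq1 hq2 hp1 hp2

end Pool.Agent.H286.STEQ
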