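import Pool.Agent.H770.GS.TK

/-!
# Project TK (helper770), subtask TK10: the numerical inequality for `b ≤ 1/2`, `1/2 ≤ ε ≤ 9/8`

(The method is that of `Pool.Agent.H142.TF18`.)
-/

set_option autoImplicit false

open MeasureTheory Set intervalIntegral Filter Topology

namespace Pool.Agent.H286.TK10

open Pool.Agent.H770.GS

/-- the first part of the lower bound of `S_TK9` -/
noncomputable def L1 (p d : ℝ) : ℝ :=
  1.226 + 4.94 * d - 4.97 * p + 24.7 * d ^ 2 / 2 - 25 * (p * d) - 144 * (p * d ^ 2 / 2)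

/-- the second part of the lower bound of `S_TK9` -/
noncomputable def L2 (p d : ℝ) : ℝ :=
  2.101 + 10.42 * d - 10.45 * p + 63.1 * d ^ 2 / 2 - 63.4 * (p * d) - 434 * (p * d ^ 2 / 2)

lemma F1_mono (β v : ℝ) (h0 : 0 ≤ β) (h1 : β ≤ 1 / 4) (hv0 : 0.24 ≤ v) (hv1 : v ≤ 0.292) :
    3 / 8 * L1 (1 / 56) ((0.3 - v * (3 / 4)) / 2) ≤
      (1 - β) / 2 * L1 (β / 14) ((0.3 - v * (1 - β)) / 2) := by
  obtain ⟨w, rfl⟩ : ∃ w, β = 1 / 4 - w := ⟨1 / 4 - β, by ring⟩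
  have hw0 : 0 ≤ w := by linarith
  have hw1 : w ≤ 1 / 4 := by linarith
  have key : (1 - (1 / 4 - w)) / 2 * L1 ((1 / 4 - w) / 14) ((0.3 - v * (1 - (1 / 4 - w))) / 2) -
      3 / 8 * L1 (1 / 56) ((0.3 - v * (3 / 4)) / 2) =
      w * ((146393/112000) + (-76113/22400) * v + (6669/2560) * v ^ 2 + (517/1400) * w +
        (-2241/700) * (w * v) + (18801/4480) * (w * v ^ 2) + (-233/280) * (w ^ 2 * v) +
        (3169/1120) * (w ^ 2 * v ^ 2) + (9/14) * (w ^ 3 * v ^ 2)) := by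
    unfold L1; ring
  have a1 : 0.24 ^ 2 ≤ v ^ 2 := by gcongr
  have a2 : w * v ≤ 1 / 4 * 0.292 := by gcongr
  have a3 : w ^ 2 * v ≤ (1 / 4) ^ 2 * 0.292 := by gcongr
  have a4 : 0 ≤ w * v ^ 2 := by positivity
  have a5 : 0 ≤ w ^ 2 * v ^ 2 := by positivity
  have a6 : 0 ≤ w ^ 3 * v ^ 2 := by positivity
  have hQ : 0 ≤ ((146393/112000) + (-76113/22400) * v + (6669/2560) * v ^ 2 + (517/1400) * w +
        (-2241/700) * (w * v) + (18801/4480) * (w * v ^ 2) + (-233/280) * (w ^ 2 * v) +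
        (3169/1120) * (w ^ 2 * v ^ 2) + (9/14) * (w ^ 3 * v ^ 2)) := by
    linarith
  have := mul_nonneg hw0 hQ
  linarith

lemma F2_mono (β v : ℝ) (h0 : 0 ≤ β) (h1 : β ≤ 1 / 4) (hv0 : 0.24 ≤ v) (hv1 : v ≤ 0.292) :
    3 / 8 * L2 (1 / 56) ((0.3 - v * (3 / 4)) / 2) ≤
      (1 - β) / 2 * L2 (β / 14) ((0.3 - v * (1 - β)) / 2) := by
  obtain ⟨w, rfl⟩ : ∃ w, β = 1 / 4 - w := ⟨1 / 4 - β, by ring⟩
  have hw0 : 0 ≤ w := by linarith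
  have hw1 : w ≤ 1 / 4 := by linarith
  have key : (1 - (1 / 4 - w)) / 2 * L2 ((1 / 4 - w) / 14) ((0.3 - v * (1 - (1 / 4 - w))) / 2) -
      3 / 8 * L2 (1 / 56) ((0.3 - v * (3 / 4)) / 2) =
      w * ((147311/56000) + (-353343/44800) * v + (17037/2560) * v ^ 2 + (9937/11200) * w +
        (-87803/11200) * (w * v) + (3537/320) * (w * v ^ 2) + (-257/112) * (w ^ 2 * v) +
        (1251/160) * (w ^ 2 * v ^ 2) + (31/16) * (w ^ 3 * v ^ 2)) := by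
    unfold L2; ring
  have a1 : 0.24 ^ 2 ≤ v ^ 2 := by gcongr
  have a2 : w * v ≤ w * 0.292 := by gcongr
  have a3 : w ^ 2 * v ≤ (1 / 4) ^ 2 * 0.292 := by gcongr
  have a4 : 0 ≤ w * v ^ 2 := by positivity
  have a5 : 0 ≤ w ^ 2 * v ^ 2 := by positivity
  have a6 : 0 ≤ w ^ 3 * v ^ 2 := by positivity
  have hQ : 0 ≤ ((147311/56000) + (-353343/44800) * v + (17037/2560) * v ^ 2 + (9937/11200) * w +
        (-87803/11200) * (w * v) + (3537/320) * (w * v ^ 2) + (-257/112) * (w ^ 2 * v) +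
        (1251/160) * (w ^ 2 * v ^ 2) + (31/16) * (w ^ 3 * v ^ 2)) := by
    linarith
  have := mul_nonneg hw0 hQ
  linarith

lemma L1_mono (v w : ℝ) (_hv0 : 0.24 ≤ v) (hvw : v ≤ w) (hw1 : w ≤ 0.292) :
    L1 (1 / 56) ((0.3 - w * (3 / 4)) / 2) ≤ L1 (1 / 56) ((0.3 - v * (3 / 4)) / 2) := by
  unfold L1
  nlinarith [mul_nonneg (sub_nonneg.2 hvw) (sub_nonneg.2 hw1),
    mul_nonneg (sub_nonneg.2 hvw) (sub_nonneg.2 _hv0)]

lemma L2_mono (v w : ℝ) (_hv0 : 0.24 ≤ v) (hvw : v ≤ w) (hw1 : w ≤ 0.292) :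
    L2 (1 / 56) ((0.3 - w * (3 / 4)) / 2) ≤ L2 (1 / 56) ((0.3 - v * (3 / 4)) / 2) := by
  unfold L2
  nlinarith [mul_nonneg (sub_nonneg.2 hvw) (sub_nonneg.2 hw1),
    mul_nonneg (sub_nonneg.2 hvw) (sub_nonneg.2 _hv0)]

/-- Taylor polynomial of degree six -/
noncomputable def T6 (x : ℝ) : ℝ :=
  1 + x + x ^ 2 / 2 + x ^ 3 / 6 + x ^ 4 / 24 + x ^ 5 / 120 + x ^ 6 / 720

lemma exp_lb (x : ℝ) (hx : 0 ≤ x) : T6 x ≤ Real.exp x := by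
  have h := Real.sum_le_exp_of_nonneg hx 7
  simp only [Finset.sum_range_succ, Finset.sum_range_zero, Nat.factorial] at h
  norm_num at h
  unfold T6
  linarith

lemma T6_pos (x : ℝ) (hx : 0 ≤ x) : 0 < T6 x := by
  unfold T6
  positivity

lemma exp_neg_ub (x : ℝ) (hx : 0 ≤ x) : Real.exp (-x) ≤ 1 / T6 x := by
  rw [Real.exp_neg, ← one_div]
  exact one_div_le_one_div_of_le (T6_pos x hx) (exp_lb x hx)

lemma exp_neg_lb (x : ℝ) (hx : 0 ≤ x) (hx1 : x ≤ 1) :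
    1 - x + x ^ 2 / 2 - x ^ 3 / 6 - x ^ 4 * (5 / 96) ≤ Real.exp (-x) := by
  have h := Real.exp_bound (x := -x) (by rw [abs_neg, abs_of_nonneg hx]; exact hx1) (n := 4) (by norm_num)
  rw [abs_le] at h
  have h1 := h.1
  simp only [Finset.sum_range_succ, Finset.sum_range_zero, Nat.factorial, abs_neg, abs_of_nonneg hx] at h1
  norm_num at h1
  nlinarith [h1]

lemma Eb_bound (c c0 : ℝ) (h0 : 0 < c0) (h : c0 ≤ c) : Eb c ≤
    2 / (T6 (8.748 * c0) * (42 / 5 * c0 * ((42 / 5 * c0) ^ 2 + 4))) := by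
  have hc : 0 < c := by linarith
  unfold Eb
  have hpi := Real.pi_gt_d4
  have e1 : Real.exp (c * (21 / 5) ^ 2 - 42 / 5 * c * Real.pi) ≤ Real.exp (-(8.748 * c0)) := by
    apply Real.exp_le_exp.2
    nlinarith
  have e2 := exp_neg_ub (8.748 * c0) (by positivity)
  have e3 : 0 < 42 / 5 * c0 * ((42 / 5 * c0) ^ 2 + 4) := by positivity
  have e4 : 42 / 5 * c0 * ((42 / 5 * c0) ^ 2 + 4) ≤ 42 / 5 * c * ((42 / 5 * c) ^ 2 + 4) := by gcongr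
  have hT0 : 0 < T6 (8.748 * c0) := T6_pos _ (by positivity)
  calc Real.exp (c * (21 / 5) ^ 2 - 42 / 5 * c * Real.pi) * 2 / (42 / 5 * c * ((42 / 5 * c) ^ 2 + 4))
      ≤ (1 / T6 (8.748 * c0)) * 2 / (42 / 5 * c0 * ((42 / 5 * c0) ^ 2 + 4)) := by
        gcongr
        exact e1.trans e2
    _ = _ := by
        field_simp

set_option maxHeartbeats 4000000 in
lemma step (ε v z C K β J R f e1 e2 c0 C0 E0 r0 A0 B0 f0 : ℝ)
    (he1 : e1 ≤ ε) (he2 : ε ≤ e2) (h1 : 1 / 2 ≤ e1) (h2 : e2 ≤ 9 / 8)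
    (hβ0 : 0 ≤ β) (hβ1 : β ≤ 1 / 4)
    (hz1 : 1 - ε / 3 + ε ^ 2 / 10 - ε ^ 3 / 42 ≤ z)
    (hz2 : z ≤ 1 - ε / 3 + ε ^ 2 / 10 - ε ^ 3 / 42 + ε ^ 4 / 216)
    (hC : 2 / 15 * Real.exp (-(3 * ε / 7)) ≤ C)
    (hv1 : 1 / 3 - 4 / 45 * ε + 0.008 * ε ^ 2 ≤ v) (hv2 : v ≤ 1 / 3 - 4 / 45 * ε + 0.0098 * ε ^ 2)
    (hK : K ≤ 0.0017 + 0.0032 * ε ^ 2)
    (hR0 : 0 < R) (hR1 : R < 1) (hR : R = Real.exp (-ε) / z)
    (hJ : R * L1 (β / 14) ((0.3 - v * (1 - β)) / 2) +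
      (1 - R) * L2 (β / 14) ((0.3 - v * (1 - β)) / 2) ≤ J)
    (hf : R * (2 / Real.pi) + (1 - R) * (24 / Real.pi ^ 3) ≤ f)
    (hc0 : 0 < c0)
    (hc : c0 ≤ (1 / 3 - 4 / 45 * e2 + 0.008 * e2 ^ 2) / 2 -
      2 * e2 / (1 - e2 / 3 + e2 ^ 2 / 10 - e2 ^ 3 / 42) * 0.052 * (1 / 4))
    (hC0 : C0 ≤ 1 - (3 * e2 / 7) + (3 * e2 / 7) ^ 2 / 2 - (3 * e2 / 7) ^ 3 / 6 - (3 * e2 / 7) ^ 4 * (5 / 96))
    (hC00 : 0 ≤ C0)
    (hE0 : 2 / (T6 (8.748 * c0) * (42 / 5 * c0 * ((42 / 5 * c0) ^ 2 + 4))) ≤ E0)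
    (hr0 : 1 / T6 e1 / (1 - e2 / 3 + e2 ^ 2 / 10 - e2 ^ 3 / 42) ≤ r0) (hr1 : r0 ≤ 1)
    (hA0 : A0 ≤ T6 ((1 / 3 - 4 / 45 * e2 + 0.008 * e2 ^ 2) * 9.869 / 2))
    (hL0 : 0 ≤ L1 (1 / 56) ((0.3 - (1 / 3 - 4 / 45 * e1 + 0.0098 * e1 ^ 2) * (3 / 4)) / 2))
    (hL1 : L1 (1 / 56) ((0.3 - (1 / 3 - 4 / 45 * e1 + 0.0098 * e1 ^ 2) * (3 / 4)) / 2) ≤
      L2 (1 / 56) ((0.3 - (1 / 3 - 4 / 45 * e1 + 0.0098 * e1 ^ 2) * (3 / 4)) / 2))
    (hB0 : B0 ≤ (2 / 15 * C0) * (3 / 8 *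
        (r0 * L1 (1 / 56) ((0.3 - (1 / 3 - 4 / 45 * e1 + 0.0098 * e1 ^ 2) * (3 / 4)) / 2) +
        (1 - r0) * L2 (1 / 56) ((0.3 - (1 / 3 - 4 / 45 * e1 + 0.0098 * e1 ^ 2) * (3 / 4)) / 2))) -
        (1 - e1 / 3 + e1 ^ 2 / 10 - e1 ^ 3 / 42 + e1 ^ 4 / 216) / (8 * e1) * E0) (hB00 : 0 ≤ B0)
    (hf0 : f0 ≤ r0 * 0.6366 + (1 - r0) * 0.774) (hf00 : 0 < f0)
    (hfin : 1.07 * (3 * (0.0017 + 0.0032 * e2 ^ 2) / f0 ^ 4) ≤ A0 * B0) :
    0 < v / 2 - 2 * ε / z * 0.052 * β ∧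
    1.07 * (3 * K / f ^ 4) ≤ Real.exp (v * 1 * Real.pi ^ 2 / 2) *
      ((1 - β) / 2 * C * J - z / (8 * ε) * Eb (1 * v / 2 - 2 * ε / z * 0.052 * β)) := by
  have hε : 0 < ε := by linarith
  have he10 : 0 < e1 := by linarith
  have he20 : 0 < e2 := by linarith
  have hzlo : 1 - e2 / 3 + e2 ^ 2 / 10 - e2 ^ 3 / 42 ≤ z := by
    refine le_trans ?_ hz1
    have q0 : 0 ≤ e2 - ε := by linarith
    have q1 : 0 ≤ (e2 - ε) * (1 / 3 - (e2 + ε) / 10 + (e2 ^ 2 + e2 * ε + ε ^ 2) / 42) := by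
      apply mul_nonneg q0
      have q2 : 0 ≤ e2 ^ 2 + e2 * ε + ε ^ 2 := by positivity
      linarith
    have q3 : (e2 - ε) * (1 / 3 - (e2 + ε) / 10 + (e2 ^ 2 + e2 * ε + ε ^ 2) / 42) =
      (1 - ε / 3 + ε ^ 2 / 10 - ε ^ 3 / 42) - (1 - e2 / 3 + e2 ^ 2 / 10 - e2 ^ 3 / 42) := by ring
    linarith
  have hzlo0 : 0 < 1 - e2 / 3 + e2 ^ 2 / 10 - e2 ^ 3 / 42 := by
    have q1 : e2 ^ 3 ≤ (9 / 8) ^ 3 := by gcongr
    have q2 : 0 ≤ e2 ^ 2 := by positivity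
    linarith
  have hz0 : 0 < z := by linarith
  have hzhi : z ≤ 1 - e1 / 3 + e1 ^ 2 / 10 - e1 ^ 3 / 42 + e1 ^ 4 / 216 := by
    refine hz2.trans ?_
    have q0 : 0 ≤ ε - e1 := by linarith
    have q1 : 0 ≤ (ε - e1) * (1 / 3 - (ε + e1) / 10 + (ε ^ 2 + ε * e1 + e1 ^ 2) / 42 -
        (ε + e1) * (ε ^ 2 + e1 ^ 2) / 216) := by
      apply mul_nonneg q0
      have q2 : 0 ≤ ε ^ 2 + ε * e1 + e1 ^ 2 := by positivity
      have q4 : (ε + e1) * (ε ^ 2 + e1 ^ 2) ≤ (9 / 8 + 9 / 8) * ((9 / 8) ^ 2 + (9 / 8) ^ 2) := by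
        have : e1 ≤ 9 / 8 := by linarith
        have : ε ≤ 9 / 8 := by linarith
        gcongr
      linarith
    have q3 : (ε - e1) * (1 / 3 - (ε + e1) / 10 + (ε ^ 2 + ε * e1 + e1 ^ 2) / 42 -
        (ε + e1) * (ε ^ 2 + e1 ^ 2) / 216) =
      (1 - e1 / 3 + e1 ^ 2 / 10 - e1 ^ 3 / 42 + e1 ^ 4 / 216) -
      (1 - ε / 3 + ε ^ 2 / 10 - ε ^ 3 / 42 + ε ^ 4 / 216) := by ring
    linarith
  have hvlo : 1 / 3 - 4 / 45 * e2 + 0.008 * e2 ^ 2 ≤ v := by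
    refine le_trans ?_ hv1
    have q1 : 0 ≤ (e2 - ε) * (4 / 45 - 0.008 * (e2 + ε)) :=
      mul_nonneg (by linarith) (by linarith)
    linarith
  have hvhi : v ≤ 1 / 3 - 4 / 45 * e1 + 0.0098 * e1 ^ 2 := by
    refine hv2.trans ?_
    have q1 : 0 ≤ (ε - e1) * (4 / 45 - 0.0098 * (ε + e1)) :=
      mul_nonneg (by linarith) (by linarith)
    linarith
  have hv24 : 0.24 ≤ v := by
    refine le_trans ?_ hvlo
    have q1 : 0 ≤ e2 ^ 2 := by positivity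
    have q2 : 1 / 4 ≤ e2 ^ 2 := by nlinarith
    nlinarith
  have hvh2 : 1 / 3 - 4 / 45 * e1 + 0.0098 * e1 ^ 2 ≤ 0.292 := by
    have q1 : 0 ≤ (e1 - 1 / 2) * (4 / 45 - 0.0098 * (e1 + 1 / 2)) :=
      mul_nonneg (by linarith) (by linarith)
    linarith
  have hκ : 2 * ε / z * 0.052 * β ≤
      2 * e2 / (1 - e2 / 3 + e2 ^ 2 / 10 - e2 ^ 3 / 42) * 0.052 * (1 / 4) := by
    gcongr
  have hcc : c0 ≤ v / 2 - 2 * ε / z * 0.052 * β := by linarith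
  have hEb : Eb (1 * v / 2 - 2 * ε / z * 0.052 * β) ≤ E0 := by
    refine le_trans ?_ hE0
    exact Eb_bound (1 * v / 2 - 2 * ε / z * 0.052 * β) c0 hc0 (by linarith)
  have hEb0 : 0 ≤ Eb (1 * v / 2 - 2 * ε / z * 0.052 * β) := by
    unfold Eb
    have : 0 < 1 * v / 2 - 2 * ε / z * 0.052 * β := by linarith
    positivity
  refine ⟨by linarith, ?_⟩
  -- the weight
  have hRr : R ≤ r0 := by
    refine le_trans ?_ hr0
    rw [hR]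
    have b1 : Real.exp (-ε) ≤ 1 / T6 e1 :=
      (Real.exp_le_exp.2 (by linarith)).trans (exp_neg_ub e1 he10.le)
    have b2 : (0:ℝ) < 1 / T6 e1 := by
      have := T6_pos e1 he10.le
      positivity
    exact div_le_div₀ b2.le b1 hzlo0 hzlo
  -- the main term
  set l1 := L1 (1 / 56) ((0.3 - (1 / 3 - 4 / 45 * e1 + 0.0098 * e1 ^ 2) * (3 / 4)) / 2) with hl1
  set l2 := L2 (1 / 56) ((0.3 - (1 / 3 - 4 / 45 * e1 + 0.0098 * e1 ^ 2) * (3 / 4)) / 2) with hl2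
  have hJ' : 3 / 8 * (r0 * l1 + (1 - r0) * l2) ≤ (1 - β) / 2 * J := by
    have a1 := L1_mono v _ hv24 hvhi hvh2
    rw [← hl1] at a1
    have a2 := F1_mono β v hβ0 hβ1 hv24 (hvhi.trans hvh2)
    have a3 := L2_mono v _ hv24 hvhi hvh2
    rw [← hl2] at a3
    have a4 := F2_mono β v hβ0 hβ1 hv24 (hvhi.trans hvh2)
    have hb : 0 ≤ (1 - β) / 2 := by linarith only [hβ1]
    have a5 : (1 - β) / 2 * (R * L1 (β / 14) ((0.3 - v * (1 - β)) / 2) +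
      (1 - R) * L2 (β / 14) ((0.3 - v * (1 - β)) / 2)) ≤ (1 - β) / 2 * J :=
      mul_le_mul_of_nonneg_left hJ hb
    have a6 : 3 / 8 * l1 ≤ (1 - β) / 2 * L1 (β / 14) ((0.3 - v * (1 - β)) / 2) := by
      linarith only [a1, a2]
    have a7 : 3 / 8 * l2 ≤ (1 - β) / 2 * L2 (β / 14) ((0.3 - v * (1 - β)) / 2) := by
      linarith only [a3, a4]
    have a8 := mul_le_mul_of_nonneg_left a6 hR0.le
    have a9 := mul_le_mul_of_nonneg_left a7 (sub_nonneg.2 hR1.le)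
    have a10 : 0 ≤ (r0 - R) * (l2 - l1) := mul_nonneg (sub_nonneg.2 hRr) (sub_nonneg.2 hL1)
    linarith only [a5, a8, a9, a10]
  have hJ0 : 0 ≤ 3 / 8 * (r0 * l1 + (1 - r0) * l2) := by
    have hr00 : 0 ≤ r0 := hR0.le.trans hRr
    have : 0 ≤ l2 := hL0.trans hL1
    have : 0 ≤ 1 - r0 := sub_nonneg.2 hr1
    positivity
  have hCC : C0 ≤ Real.exp (-(3 * ε / 7)) := by
    refine hC0.trans ((exp_neg_lb (3 * e2 / 7) (by positivity) (by linarith only [h2])).trans ?_)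
    apply Real.exp_le_exp.2
    linarith only [he2]
  have hmain1 : (2 / 15 * C0) * (3 / 8 * (r0 * l1 + (1 - r0) * l2)) ≤ (1 - β) / 2 * C * J := by
    have b1 : 2 / 15 * C0 ≤ C := by linarith only [hCC, hC]
    have b2 : 0 ≤ 2 / 15 * C0 := by positivity
    have b4 : (2 / 15 * C0) * (3 / 8 * (r0 * l1 + (1 - r0) * l2)) ≤
        C * ((1 - β) / 2 * J) := mul_le_mul b1 hJ' hJ0 (b2.trans b1)
    have b5 : C * ((1 - β) / 2 * J) = (1 - β) / 2 * C * J := by ring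
    rw [b5] at b4
    exact b4
  have hmain2 : z / (8 * ε) * Eb (1 * v / 2 - 2 * ε / z * 0.052 * β) ≤
      (1 - e1 / 3 + e1 ^ 2 / 10 - e1 ^ 3 / 42 + e1 ^ 4 / 216) / (8 * e1) * E0 := by
    have b1 : z / (8 * ε) ≤ (1 - e1 / 3 + e1 ^ 2 / 10 - e1 ^ 3 / 42 + e1 ^ 4 / 216) / (8 * e1) :=
      div_le_div₀ (hz0.le.trans hzhi) hzhi (by positivity) (by linarith only [he1])
    have b2 : (0:ℝ) ≤ z / (8 * ε) := by positivity
    exact mul_le_mul b1 hEb hEb0 (b2.trans b1)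
  have hB : B0 ≤ (1 - β) / 2 * C * J - z / (8 * ε) * Eb (1 * v / 2 - 2 * ε / z * 0.052 * β) := by
    linarith only [hB0, hmain1, hmain2]
  have hpi := Real.pi_gt_d4
  have hpi2 := Real.pi_lt_d4
  have hp0 := Real.pi_pos
  have hpisq : 9.869 ≤ Real.pi ^ 2 := by
    have : (3.1415:ℝ) ^ 2 ≤ Real.pi ^ 2 := by gcongr
    refine le_trans ?_ this
    norm_num
  have hA : A0 ≤ Real.exp (v * 1 * Real.pi ^ 2 / 2) := by
    have hvlo0 : 0 ≤ 1 / 3 - 4 / 45 * e2 + 0.008 * e2 ^ 2 := by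
      have : 0 ≤ e2 ^ 2 := by positivity
      linarith only [h2, this]
    have hx0 : 0 ≤ (1 / 3 - 4 / 45 * e2 + 0.008 * e2 ^ 2) * 9.869 / 2 := by positivity
    refine hA0.trans ((exp_lb _ hx0).trans ?_)
    apply Real.exp_le_exp.2
    have hv0 : 0 ≤ v := by linarith only [hv24]
    have : (1 / 3 - 4 / 45 * e2 + 0.008 * e2 ^ 2) * 9.869 ≤ v * Real.pi ^ 2 := by gcongr
    linarith only [this]
  have hff : f0 ≤ f := by
    refine le_trans (hf0.trans ?_) hf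
    have c1 : 0.6366 ≤ 2 / Real.pi := by
      rw [le_div_iff₀ hp0]
      linarith only [hpi2]
    have c2 : 0.774 ≤ 24 / Real.pi ^ 3 := by
      rw [le_div_iff₀ (by positivity)]
      have : Real.pi ^ 3 ≤ 3.1416 ^ 3 := by gcongr
      linarith only [this]
    have c3 := mul_le_mul_of_nonneg_left c1 hR0.le
    have c4 := mul_le_mul_of_nonneg_left c2 (sub_nonneg.2 hR1.le)
    linarith only [c3, c4, hRr]
  have hlhs : 1.07 * (3 * K / f ^ 4) ≤ 1.07 * (3 * (0.0017 + 0.0032 * e2 ^ 2) / f0 ^ 4) := by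
    have hε2 : ε ^ 2 ≤ e2 ^ 2 := pow_le_pow_left₀ hε.le he2 2
    have hK2 : 3 * K ≤ 3 * (0.0017 + 0.0032 * e2 ^ 2) := by linarith only [hK, hε2]
    have hK3 : 0 ≤ 3 * (0.0017 + 0.0032 * e2 ^ 2) := by positivity
    have hf4 : f0 ^ 4 ≤ f ^ 4 := pow_le_pow_left₀ hf00.le hff 4
    have h5 : 3 * K / f ^ 4 ≤ 3 * (0.0017 + 0.0032 * e2 ^ 2) / f0 ^ 4 :=
      div_le_div₀ hK3 hK2 (by positivity) hf4
    linarith only [h5]
  calc _ ≤ _ := hlhs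
    _ ≤ _ := hfin
    _ ≤ _ := mul_le_mul hA hB hB00 (Real.exp_pos _).le

lemma core (ε v z C K β J R f : ℝ)
    (h1 : 1 / 2 ≤ ε) (h2 : ε ≤ 9 / 8)
    (hβ0 : 0 ≤ β) (hβ1 : β ≤ 1 / 4)
    (hz1 : 1 - ε / 3 + ε ^ 2 / 10 - ε ^ 3 / 42 ≤ z)
    (hz2 : z ≤ 1 - ε / 3 + ε ^ 2 / 10 - ε ^ 3 / 42 + ε ^ 4 / 216)
    (hC : 2 / 15 * Real.exp (-(3 * ε / 7)) ≤ C)
    (hv1 : 1 / 3 - 4 / 45 * ε + 0.008 * ε ^ 2 ≤ v) (hv2 : v ≤ 1 / 3 - 4 / 45 * ε + 0.0098 * ε ^ 2)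
    (hK : K ≤ 0.0017 + 0.0032 * ε ^ 2)
    (hR0 : 0 < R) (hR1 : R < 1) (hR : R = Real.exp (-ε) / z)
    (hJ : R * L1 (β / 14) ((0.3 - v * (1 - β)) / 2) +
      (1 - R) * L2 (β / 14) ((0.3 - v * (1 - β)) / 2) ≤ J)
    (hf : R * (2 / Real.pi) + (1 - R) * (24 / Real.pi ^ 3) ≤ f) :
    0 < v / 2 - 2 * ε / z * 0.052 * β ∧
    1.07 * (3 * K / f ^ 4) ≤ Real.exp (v * 1 * Real.pi ^ 2 / 2) *
      ((1 - β) / 2 * C * J - z / (8 * ε) * Eb (1 * v / 2 - 2 * ε / z * 0.052 * β)) := by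
  rcases le_total ε 0.7 with ha | ha
  · exact step ε v z C K β J R f (1 / 2) 0.7 0.1149 0.74 0.1539 0.7512 3.883 0.0258 0.6707 h1 ha
      (by norm_num) (by norm_num) hβ0 hβ1 hz1 hz2 hC hv1 hv2 hK hR0 hR1 hR hJ hf (by norm_num)
      (by norm_num) (by norm_num) (by norm_num) (by norm_num [T6]) (by norm_num [T6]) (by norm_num)
      (by norm_num [T6]) (by norm_num [L1]) (by norm_num [L1, L2]) (by norm_num [L1, L2])
      (by norm_num) (by norm_num) (by norm_num) (by norm_num)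
  rcases le_total ε 0.85 with hb | hb
  · exact step ε v z C K β J R f 0.7 0.85 0.1032 0.693 0.1969 0.6414 3.6697 0.0319 0.6858 ha hb
      (by norm_num) (by norm_num) hβ0 hβ1 hz1 hz2 hC hv1 hv2 hK hR0 hR1 hR hJ hf (by norm_num)
      (by norm_num) (by norm_num) (by norm_num) (by norm_num [T6]) (by norm_num [T6]) (by norm_num)
      (by norm_num [T6]) (by norm_num [L1]) (by norm_num [L1, L2]) (by norm_num [L1, L2])
      (by norm_num) (by norm_num) (by norm_num) (by norm_num)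
  rcases le_total ε 1 with hc | hc
  · exact step ε v z C K β J R f 0.85 1 0.0912 0.6483 0.2564 0.5754 3.4742 0.0304 0.6949 hb hc
      (by norm_num) (by norm_num) hβ0 hβ1 hz1 hz2 hC hv1 hv2 hK hR0 hR1 hR hJ hf (by norm_num)
      (by norm_num) (by norm_num) (by norm_num) (by norm_num [T6]) (by norm_num [T6]) (by norm_num)
      (by norm_num [T6]) (by norm_num [L1]) (by norm_num [L1, L2]) (by norm_num [L1, L2])
      (by norm_num) (by norm_num) (by norm_num) (by norm_num)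
  · exact step ε v z C K β J R f 1 (9 / 8) 0.0809 0.6125 0.3251 0.5127 3.3237 0.0292 0.7035 hc h2
      (by norm_num) (by norm_num) hβ0 hβ1 hz1 hz2 hC hv1 hv2 hK hR0 hR1 hR hJ hf (by norm_num)
      (by norm_num) (by norm_num) (by norm_num) (by norm_num [T6]) (by norm_num [T6]) (by norm_num)
      (by norm_num [T6]) (by norm_num [L1]) (by norm_num [L1, L2]) (by norm_num [L1, L2])
      (by norm_num) (by norm_num) (by norm_num) (by norm_num)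

/-- the lower bound at `π / 2` -/
lemma lb_half (ρ : ℝ) : lb ρ (Real.pi / 2) = ρ * (2 / Real.pi) + (1 - ρ) * (24 / Real.pi ^ 3) := by
  have hp := Real.pi_pos
  unfold lb
  rw [Real.sinc_of_ne_zero (by positivity), Real.sin_pi_div_two, Real.cos_pi_div_two]
  field_simp
  ring

/-- **TK10** -/
theorem tk10 : S_TK10 := by
  intro h2 hk1 hk4 hk7 hk8 hk9 ε b hε1 hε2 hb0 hb1
  obtain ⟨hz1, hz2, hch, hv1, hv2⟩ := hk4 ε hε1 hε2
  have hK := hk7 h2 hk4 ε hε1 hε2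
  obtain ⟨hR0, hR1, hlb⟩ := hk1 h2 ε (by linarith)
  have hβ1 : b ^ 2 ≤ 1 / 4 := by nlinarith
  have hβ0 : 0 ≤ b ^ 2 := by positivity
  have hε0 : 0 ≤ ε ^ 2 := by positivity
  have hv24 : 0.24 ≤ vv ε := by nlinarith
  have hv30 : vv ε ≤ 0.3 := by nlinarith
  have hJ := hk9 hk8 (rh ε) (b ^ 2 / 14) (vv ε * (1 - b ^ 2)) ((0.3 - vv ε * (1 - b ^ 2)) / 2)
    hR0.le hR1.le (by positivity) (by linarith) (by nlinarith) (by nlinarith) rfl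
  have h25 : (25.0 : ℝ) = 25 := by norm_num
  rw [h25] at hJ
  have hf := hlb (Real.pi / 2) (by positivity) (by linarith [Real.pi_pos])
  rw [lb_half] at hf
  exact core ε (vv ε) (zt ε) (ch ε 0) (KK3 ε 3) (b ^ 2) _ (rh ε) _ hε1 hε2 hβ0 hβ1 hz1 hz2 hch hv1
    hv2 hK hR0 hR1 rfl hJ hf

end Pool.Agent.H286.TK10
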