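import Mathlib
import Pool.Agent.H812.Tm.Spec2

/-!
# SLagA1: traces do not vanish off the unit circle
-/

set_option autoImplicit false

open Real

namespace Pool.Agent.H286.Tm

open Pool.Agent.H812.Tm

/-- 2 by 2 matrices -/
abbrev M2 : Type := Matrix (Fin 2) (Fin 2) ℂ

/-- the indefinite form -/
noncomputable def hh (x y : ℂ) : ℝ := Complex.normSq y - Complex.normSq x

/-- weakly expanding -/
def Wk (t : ℝ) (A : M2) : Prop := ∀ x y : ℂ,
  0 ≤ t * (hh (A 0 0 * x + A 0 1 * y) (A 1 0 * x + A 1 1 * y) - hh x y)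

/-- strictly expanding -/
def St (t : ℝ) (A : M2) : Prop := ∀ x y : ℂ, ¬ (x = 0 ∧ y = 0) →
  0 < t * (hh (A 0 0 * x + A 0 1 * y) (A 1 0 * x + A 1 1 * y) - hh x y)

theorem St.wk {t : ℝ} {A : M2} (h : St t A) : Wk t A := by
  intro x y
  by_cases h0 : x = 0 ∧ y = 0
  · rw [h0.1, h0.2]
    simp
  · exact (h x y h0).le

theorem mul_vec0 (A C : M2) (x y : ℂ) : (A * C) 0 0 * x + (A * C) 0 1 * y =
    A 0 0 * (C 0 0 * x + C 0 1 * y) + A 0 1 * (C 1 0 * x + C 1 1 * y) := by
  rw [Matrix.mul_apply, Matrix.mul_apply, Fin.sum_univ_two, Fin.sum_univ_two]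
  ring

theorem mul_vec1 (A C : M2) (x y : ℂ) : (A * C) 1 0 * x + (A * C) 1 1 * y =
    A 1 0 * (C 0 0 * x + C 0 1 * y) + A 1 1 * (C 1 0 * x + C 1 1 * y) := by
  rw [Matrix.mul_apply, Matrix.mul_apply, Fin.sum_univ_two, Fin.sum_univ_two]
  ring

theorem Wk.mul_st {t : ℝ} {A C : M2} (hA : Wk t A) (hC : St t C) : St t (A * C) := by
  intro x y h
  rw [mul_vec0, mul_vec1]
  have h1 := hA (C 0 0 * x + C 0 1 * y) (C 1 0 * x + C 1 1 * y)
  have h2 := hC x y h
  nlinarith

theorem mul_pow_wk {t : ℝ} {A C : M2} (hA : Wk t A) (hC : St t C) (k : ℕ) : Wk t (A * C ^ k) := by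
  induction k with
  | zero => rw [pow_zero, mul_one]; exact hA
  | succ k ih =>
    rw [pow_succ, ← mul_assoc]
    exact (ih.mul_st hC).wk

theorem mul_pow_st {t : ℝ} {A C : M2} (hA : Wk t A) (hC : St t C) {k : ℕ} (hk : 1 ≤ k) :
    St t (A * C ^ k) := by
  obtain ⟨k, rfl⟩ : ∃ k', k = k' + 1 := ⟨k - 1, by omega⟩
  rw [pow_succ, ← mul_assoc]
  exact (mul_pow_wk hA hC k).mul_st hC

/-- trace identity -/
theorem tr_id (A C : M2) (hC : C.det = 1) :
    (A * C * C).trace = (A * C).trace * C.trace - A.trace := by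
  rw [Matrix.det_fin_two] at hC
  simp only [Matrix.trace_fin_two, Matrix.mul_apply, Fin.sum_univ_two]
  linear_combination (-(A 0 0 + A 1 1)) * hC

/-- the point of trace space -/
noncomputable def pt (A C : M2) : ℂ × ℂ × ℂ := (A.trace / 2, C.trace / 2, (A * C).trace / 2)

theorem cR_pt (A C : M2) (hC : C.det = 1) : cR (pt A C) = pt (A * C) C := by
  unfold cR pt
  simp only [Prod.mk.injEq, true_and]
  rw [tr_id A C hC]
  ring

theorem cR_iter (A C : M2) (hC : C.det = 1) (k : ℕ) : cR^[k] (pt A C) = pt (A * C ^ k) C := by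
  induction k with
  | zero => simp
  | succ k ih =>
    rw [Function.iterate_succ_apply', ih, cR_pt _ _ hC, mul_assoc, ← pow_succ]

theorem cS_pt (A C : M2) : cS (pt A C) = pt C A := by
  unfold cS pt
  simp only [Prod.mk.injEq, true_and]
  rw [Matrix.trace_mul_comm]

theorem inv_orb {t : ℝ} (d : ℕ → ℕ) (hd : ∀ k, 1 ≤ d k) (A C : M2) (hA1 : A.det = 1)
    (hC1 : C.det = 1) (hA : Wk t A) (hC : St t C) (m : ℕ) : ∃ A' C' : M2, A'.det = 1 ∧
      C'.det = 1 ∧ Wk t A' ∧ St t C' ∧ corb d (pt A C) m = pt A' C' := by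
  induction m with
  | zero => exact ⟨A, C, hA1, hC1, hA, hC, rfl⟩
  | succ m ih =>
    obtain ⟨A', C', h1, h2, h3, h4, h5⟩ := ih
    refine ⟨C', A' * C' ^ d m, h2, ?_, h4.wk, mul_pow_st h3 h4 (hd m), ?_⟩
    · rw [Matrix.det_mul, Matrix.det_pow, h1, h2, one_pow, mul_one]
    · show cS (cR^[d m] (corb d (pt A C) m)) = _
      rw [h5, cR_iter _ _ h2, cS_pt]

theorem tr_ne {t : ℝ} {C : M2} (h1 : C.det = 1) (h : St t C) : C.trace ≠ 0 := by
  intro h0
  rw [Matrix.trace_fin_two] at h0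
  rw [Matrix.det_fin_two] at h1
  have e1 := h 1 0 (by simp)
  have hne : ¬ (C 0 0 * 1 + C 0 1 * 0 = 0 ∧ C 1 0 * 1 + C 1 1 * 0 = 0) := by
    rintro ⟨a, b⟩
    rw [mul_one, mul_zero, add_zero] at a b
    rw [a, b] at h1
    simp at h1
  have e2 := h _ _ hne
  have a1 : C 0 0 * (C 0 0 * 1 + C 0 1 * 0) + C 0 1 * (C 1 0 * 1 + C 1 1 * 0) = -1 := by
    linear_combination C 0 0 * h0 - h1
  have a2 : C 1 0 * (C 0 0 * 1 + C 0 1 * 0) + C 1 1 * (C 1 0 * 1 + C 1 1 * 0) = 0 := by
    linear_combination C 1 0 * h0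
  rw [a1, a2] at e2
  have e3 : hh (-1) 0 = hh 1 0 := by
    unfold hh
    simp
  rw [e3] at e2
  nlinarith

theorem tLagA1 : SLagA1 := by
  intro δ φ hφ d hd m u hu hu1
  set B : ℝ := Bf δ (cos φ) with hB
  set β : ℝ := δ / sin φ with hβ
  have hs : sin φ ≠ 0 := hφ.ne'
  have hBB : B ^ 2 = 1 + β ^ 2 := by
    have h1 : 1 - cos φ ^ 2 = sin φ ^ 2 := by
      have := Real.sin_sq_add_cos_sq φ
      linarith
    have h2 : (1 + δ ^ 2 - cos φ ^ 2) / (1 - cos φ ^ 2) = 1 + β ^ 2 := by
      have h3 : 1 + δ ^ 2 - cos φ ^ 2 = sin φ ^ 2 + δ ^ 2 := by linarith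
      rw [h3, h1, hβ]
      field_simp
    rw [hB, Bf, Real.sq_sqrt, h2]
    rw [h2]
    positivity
  have hB0 : 0 < B := by
    have h0 : 0 ≤ B := by
      rw [hB, Bf]
      exact Real.sqrt_nonneg _
    rcases eq_or_lt_of_le h0 with h | h
    · rw [← h] at hBB
      nlinarith [sq_nonneg β]
    · exact h
  set r : ℝ := Complex.normSq u with hr
  have hr0 : 0 < r := Complex.normSq_pos.2 hu
  have hr1 : r - 1 ≠ 0 := by
    intro h
    apply hu1
    have h2 : ‖u‖ ^ 2 = 1 := by
      rw [Complex.sq_norm]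
      linarith
    nlinarith [norm_nonneg u]
  let P : M2 := !![Complex.exp (φ * Complex.I), 0; 0, Complex.exp (-(φ * Complex.I))]
  let Q : M2 := !![(B : ℂ) * u⁻¹, (β : ℂ); (β : ℂ), (B : ℂ) * u]
  have hPd : P.det = 1 := by
    rw [Matrix.det_fin_two_of, ← Complex.exp_add]
    simp
  have hQd : Q.det = 1 := by
    rw [Matrix.det_fin_two_of]
    have h1 : (B : ℂ) ^ 2 = 1 + (β : ℂ) ^ 2 := by exact_mod_cast hBB
    have h2 : u⁻¹ * u = 1 := inv_mul_cancel₀ hu
    linear_combination (B : ℂ) ^ 2 * h2 + h1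
  have hPW : Wk (r - 1) P := by
    intro x y
    have e1 : P 0 0 = Complex.exp (φ * Complex.I) := rfl
    have e2 : P 0 1 = 0 := rfl
    have e3 : P 1 0 = 0 := rfl
    have e4 : P 1 1 = Complex.exp (-(φ * Complex.I)) := rfl
    have n1 : Complex.normSq (Complex.exp (φ * Complex.I)) = 1 := by
      rw [← Complex.sq_norm, Complex.norm_exp_ofReal_mul_I, one_pow]
    have n2 : Complex.normSq (Complex.exp (-(φ * Complex.I))) = 1 := by
      have : -((φ : ℂ) * Complex.I) = ((-φ : ℝ) : ℂ) * Complex.I := by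
        push_cast
        ring
      rw [this, ← Complex.sq_norm, Complex.norm_exp_ofReal_mul_I, one_pow]
    rw [e1, e2, e3, e4]
    unfold hh
    rw [zero_mul, zero_mul, add_zero, zero_add, map_mul, map_mul, n1, n2, one_mul, one_mul,
      sub_self, mul_zero]
  have hQS : St (r - 1) Q := by
    intro x y hxy
    have e1 : Q 0 0 = (B : ℂ) * u⁻¹ := rfl
    have e2 : Q 0 1 = (β : ℂ) := rfl
    have e3 : Q 1 0 = (β : ℂ) := rfl
    have e4 : Q 1 1 = (B : ℂ) * u := rfl
    rw [e1, e2, e3, e4]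
    obtain ⟨w, rfl⟩ : ∃ w, x = u * w := ⟨u⁻¹ * x, by rw [← mul_assoc, mul_inv_cancel₀ hu, one_mul]⟩
    have e5 : (B : ℂ) * u⁻¹ * (u * w) = B * w := by
      field_simp
    rw [e5]
    have hwy : 0 < Complex.normSq w + Complex.normSq y := by
      have h1 := Complex.normSq_nonneg w
      have h2 := Complex.normSq_nonneg y
      rcases eq_or_lt_of_le h1 with h | h
      · have hw : w = 0 := Complex.normSq_eq_zero.1 h.symm
        have hy : y ≠ 0 := by
          intro hy
          exact hxy ⟨by rw [hw, mul_zero], hy⟩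
        have := Complex.normSq_pos.2 hy
        linarith
      · linarith
    have key : hh ((B : ℂ) * w + (β : ℂ) * y) ((β : ℂ) * (u * w) + (B : ℂ) * u * y) - hh (u * w) y =
        (r - 1) * (B * (B * (Complex.normSq w + Complex.normSq y) +
          2 * β * (w.re * y.re + w.im * y.im))) := by
      unfold hh
      have e6 : (β : ℂ) * (u * w) + (B : ℂ) * u * y = u * ((β : ℂ) * w + (B : ℂ) * y) := by ring
      rw [e6, map_mul, map_mul, ← hr]
      simp only [Complex.normSq_apply, Complex.add_re, Complex.add_im, Complex.mul_re,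
        Complex.mul_im, Complex.ofReal_re, Complex.ofReal_im]
      have hBB' : β ^ 2 = B ^ 2 - 1 := by linarith
      ring_nf
      rw [hBB']
      ring
    rw [key]
    have h3 : 0 < B * (Complex.normSq w + Complex.normSq y) +
        2 * β * (w.re * y.re + w.im * y.im) := by
      have hb : |β| < B := by
        rw [← abs_of_pos hB0]
        exact sq_lt_sq.1 (by linarith)
      have h4 : |2 * β * (w.re * y.re + w.im * y.im)| ≤
          |β| * (Complex.normSq w + Complex.normSq y) := by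
        rw [abs_mul, abs_mul, abs_two]
        have h5 : 2 * |w.re * y.re + w.im * y.im| ≤ Complex.normSq w + Complex.normSq y := by
          rw [Complex.normSq_apply, Complex.normSq_apply]
          have h6 : |w.re * y.re + w.im * y.im| ≤
              (w.re * w.re + w.im * w.im + (y.re * y.re + y.im * y.im)) / 2 := by
            rw [abs_le]
            constructor <;> nlinarith [sq_nonneg (w.re - y.re), sq_nonneg (w.im - y.im),
              sq_nonneg (w.re + y.re), sq_nonneg (w.im + y.im)]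
          linarith
        calc 2 * |β| * |w.re * y.re + w.im * y.im| =
              |β| * (2 * |w.re * y.re + w.im * y.im|) := by ring
          _ ≤ _ := mul_le_mul_of_nonneg_left h5 (abs_nonneg _)
      have h7 := (abs_le.1 h4).1
      nlinarith
    have h4 : (r - 1) * ((r - 1) * (B * (B * (Complex.normSq w + Complex.normSq y) +
        2 * β * (w.re * y.re + w.im * y.im)))) = (r - 1) ^ 2 * (B * (B * (Complex.normSq w +
        Complex.normSq y) + 2 * β * (w.re * y.re + w.im * y.im))) := by ring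
    rw [h4]
    have h5 : 0 < (r - 1) ^ 2 := by positivity
    positivity
  have hpt : cze δ φ u = pt P Q := by
    unfold cze pt
    have t1 : P.trace = Complex.exp (φ * Complex.I) + Complex.exp (-(φ * Complex.I)) := by
      rw [Matrix.trace_fin_two]
      rfl
    have t2 : Q.trace = (B : ℂ) * u⁻¹ + (B : ℂ) * u := by
      rw [Matrix.trace_fin_two]
      rfl
    have t3 : (P * Q).trace = Complex.exp (φ * Complex.I) * ((B : ℂ) * u⁻¹) +
        Complex.exp (-(φ * Complex.I)) * ((B : ℂ) * u) := by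
      rw [Matrix.trace_fin_two, Matrix.mul_apply, Matrix.mul_apply, Fin.sum_univ_two,
        Fin.sum_univ_two]
      simp [P, Q]
    rw [t1, t2, t3]
    refine Prod.ext ?_ (Prod.ext ?_ ?_)
    · show ((cos φ : ℝ) : ℂ) = _
      rw [Complex.ofReal_cos, Complex.cos, neg_mul]
    · show (B : ℂ) * (u + u⁻¹) / 2 = _
      ring
    · show (B : ℂ) * (Complex.exp (-(φ * Complex.I)) * u + Complex.exp (φ * Complex.I) * u⁻¹) / 2 = _
      ring
  obtain ⟨A', C', -, h2, -, h4, h5⟩ := inv_orb d hd P Q hPd hQd hPW hQS m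
  rw [hpt, h5]
  show C'.trace / 2 ≠ 0
  exact div_ne_zero (tr_ne h2 h4) two_ne_zero

end Pool.Agent.H286.Tm
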